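import Pool.Agent.Helper2.PB.Scal
import Pool.Agent.Helper22.PayT2

/-!
# The scalar certificate of `T2`
-/

namespace Pool.Agent.Helper2.PB.T2

open Pool.Agent.Helper2.OC
open Pool.Agent.Helper2.OC.Bern (add2 smul2)

def pa : P3 := add3 (vc 1) (smul3 (-1) px)
def pom : P3 := add3 (vc 1) (smul3 (-1) pr)
def pw' : P3 := mul3 px pom
def pd : P3 := mul3 (add3 (vc 1) (smul3 (-1) vt)) (add3 pm (smul3 (-1) px))
def p2w : P3 := add3 (vc 2) (smul3 (-1) pw')

/-- `8 pay / z` -/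
def pz : P3 := add3 (add3 (smul3 2 (mul3 (mul3 vt pom) (add3 (add3 (vc 1) pa)
  (add3 (mul3 pa pa) (mul3 pa (mul3 pa pa)))))) (mul3 pd (add3 (smul3 2 (mul3 pa pa))
    (mul3 p2w p2w)))) (smul3 (-2) (mul3 vz (mul3 pd pd)))

theorem pz_spec (z t r : ℝ) : ev3 pz z t r * z =
    8 * payT2 (t * z) (t * z * (r * (t * z))) (z * (2 - z) - (2 * (t * z) - (t * z) ^ 2)) := by
  simp only [pz, pa, pom, pw', pd, p2w, pm, px, pr, ev3_add, ev3_smul, ev3_mul,
    ev3_vz, ev3_vt, ev3_vr, ev3_vc, payT2]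
  push_cast
  ring

def cA : List ℤ := [906996, -496224, 345695, -137184]
def cB : List ℤ := [592253, 1669100, -1186361, -2183979, 1777777]
def cH : List (List ℤ) := [[-4856676, 4000300, -2062329, 11109871, -8549429], [11357889, -23252855, 11975405], [-10796]]
def cS : ℤ := 1048576

def F0 : P3 := FT cA cB cH cS pz

def F : P3 := F0.take 14

def q : Par := ⟨84, 13, 16, 8, 66⟩

theorem q_ok : q.OK := ⟨by decide, by decide, by decide⟩

def W : Wts q where
  w1 := [25740, 1980, 330, 90, 36, 20, 15, 15, 20, 36, 90, 330, 1980, 25740]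
  w2 := [720720, 45045, 6006, 1287, 396, 165, 90, 63, 56, 63, 90, 165, 396, 1287, 6006, 45045, 720720]
  w3 := [280, 35, 10, 5, 4, 5, 10, 35, 280]
  L1 := 25740
  L2 := 720720
  L3 := 280
  h1 := by norm_num [wOK, q, Nat.choose]
  h2 := by norm_num [wOK, q, Nat.choose]
  h3 := by norm_num [wOK, q, Nat.choose]
  l1 := rfl
  l2 := rfl
  l3 := rfl
  p1 := by norm_num
  p2 := by norm_num
  p3 := by norm_num

def allOK : Bool := (isZ (F0.drop 14) && lenOK q F) && (bdd (2 ^ 66) (tens W F) &&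
  chkP q skp 18 (pack q (tens W F)))

theorem allOK_true : allOK = true := by decide +kernel

theorem dyn_pos (z t r : ℝ) (h1 : 0 ≤ z) (h1' : z ≤ 1) (h2 : 0 ≤ t) (h2' : t ≤ 1) (h3 : 0 ≤ r)
    (h3' : r ≤ 1) (hr : r * (4 - 3 * (t * z)) ≤ 1) : 0 ≤ ev3 (FT cA cB cH cS pz) z t r := by
  have h := allOK_true
  unfold allOK at h
  rw [Bool.and_eq_true, Bool.and_eq_true, Bool.and_eq_true] at h
  rw [show FT cA cB cH cS pz = F0 from rfl, ← ev3_take 14 _ h.1.1]
  exact nonneg_of_tests q_ok W skp _ skp_ok F 18 _ h.1.2 h.2.1 rfl h.2.2 z t r h1 h1' h2 h2' h3 h3' hr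

def M1 : List (List ℤ) := hom 5 (der (rows cA cB cH))
def M2 : List (List ℤ) := hom 5 (rows cA cB cH)
def M3 : List (List ℤ) := hom 5 (add2 [[1047520]] (smul2 (-1) (rows cA cB cH)))

theorem M1_ok : Bern.chk 20 8 8 true M1 = true := by decide +kernel
theorem M2_ok : Bern.chk 20 8 8 true M2 = true := by decide +kernel
theorem M3_ok : Bern.chk 20 8 8 true M3 = true := by decide +kernel

theorem cert : CertR payT2 (PF cA cB cH cS) (1047520 / 1048576) := by
  refine certR_of (pz := pz) (n := 5) (VI := 1047520) (by norm_num [cS]) pz_spec dyn_pos (by decide +kernel)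
    (by decide +kernel) ?_ ?_ ?_ ?_ (by decide +kernel)
  · exact fun x s h1 h2 h3 h4 => Bern.chk_sound 20 8 8 true _ M1_ok x s h1 h2 h3 h4
  · exact fun x s h1 h2 h3 h4 => Bern.chk_sound 20 8 8 true _ M2_ok x s h1 h2 h3 h4
  · norm_num [cS]
  · exact fun x s h1 h2 h3 h4 => Bern.chk_sound 20 8 8 true _ M3_ok x s h1 h2 h3 h4

end Pool.Agent.Helper2.PB.T2
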