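import Pool.Agent.Helper2.PB.Split

/-!
# Verified positivity test for trivariate polynomials given by packed Bernstein tensors
-/

namespace Pool.Agent.Helper2.PB

/-- trivariate Bernstein polynomial -/
noncomputable def E3 (n1 n2 n3 : ℕ) (a : ℕ → ℕ → ℕ → ℝ) (t1 t2 t3 : ℝ) : ℝ :=
  D n1 (fun i => D n2 (fun j => D n3 (fun k => a i j k) t3) t2) t1

section

variable {n1 n2 n3 : ℕ} {a b : ℕ → ℕ → ℕ → ℝ} {t1 t2 t3 : ℝ}

theorem E3_mono (h : ∀ i j k, i ≤ n1 → j ≤ n2 → k ≤ n3 → a i j k ≤ b i j k)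
    (h1 : 0 ≤ t1) (h1' : t1 ≤ 1) (h2 : 0 ≤ t2) (h2' : t2 ≤ 1) (h3 : 0 ≤ t3) (h3' : t3 ≤ 1) :
    E3 n1 n2 n3 a t1 t2 t3 ≤ E3 n1 n2 n3 b t1 t2 t3 :=
  D_mono _ (fun i hi => D_mono _ (fun j hj => D_mono _ (fun k hk => h i j k hi hj hk) h3 h3')
    h2 h2') h1 h1'

theorem E3_const (c : ℝ) : E3 n1 n2 n3 (fun _ _ _ => c) t1 t2 t3 = c := by
  unfold E3
  simp only [D_const]

theorem E3_left1 : E3 n1 n2 n3 (fun i j k => D i (fun m => a m j k) (1 / 2)) t1 t2 t3 =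
    E3 n1 n2 n3 a (t1 / 2) t2 t3 := by
  unfold E3
  rw [show t1 / 2 = t1 * (1 / 2) by ring, ← D_left]
  refine D_congr _ (fun i _ => ?_) _
  rw [D_comm i n2]
  refine D_congr _ (fun j _ => ?_) _
  rw [D_comm i n3]

theorem E3_left2 : E3 n1 n2 n3 (fun i j k => D j (fun m => a i m k) (1 / 2)) t1 t2 t3 =
    E3 n1 n2 n3 a t1 (t2 / 2) t3 := by
  unfold E3
  refine D_congr _ (fun i _ => ?_) _
  rw [show t2 / 2 = t2 * (1 / 2) by ring, ← D_left]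
  refine D_congr _ (fun j _ => ?_) _
  rw [D_comm j n3]

theorem E3_left3 : E3 n1 n2 n3 (fun i j k => D k (fun m => a i j m) (1 / 2)) t1 t2 t3 =
    E3 n1 n2 n3 a t1 t2 (t3 / 2) := by
  unfold E3
  refine D_congr _ (fun i _ => ?_) _
  refine D_congr _ (fun j _ => ?_) _
  rw [show t3 / 2 = t3 * (1 / 2) by ring, ← D_left]

theorem E3_right1 : E3 n1 n2 n3 (fun i j k => D (n1 - i) (fun m => a (m + i) j k) (1 / 2)) t1 t2 t3 =
    E3 n1 n2 n3 a ((1 + t1) / 2) t2 t3 := by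
  unfold E3
  rw [show (1 + t1) / 2 = 1 / 2 + t1 - 1 / 2 * t1 by ring, ← D_right]
  refine D_congr _ (fun i _ => ?_) _
  rw [D_comm (n1 - i) n2]
  refine D_congr _ (fun j _ => ?_) _
  rw [D_comm (n1 - i) n3]

theorem E3_right2 : E3 n1 n2 n3 (fun i j k => D (n2 - j) (fun m => a i (m + j) k) (1 / 2)) t1 t2 t3 =
    E3 n1 n2 n3 a t1 ((1 + t2) / 2) t3 := by
  unfold E3
  refine D_congr _ (fun i _ => ?_) _
  rw [show (1 + t2) / 2 = 1 / 2 + t2 - 1 / 2 * t2 by ring, ← D_right]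
  refine D_congr _ (fun j _ => ?_) _
  rw [D_comm (n2 - j) n3]

theorem E3_right3 : E3 n1 n2 n3 (fun i j k => D (n3 - k) (fun m => a i j (m + k)) (1 / 2)) t1 t2 t3 =
    E3 n1 n2 n3 a t1 t2 ((1 + t3) / 2) := by
  unfold E3
  refine D_congr _ (fun i _ => ?_) _
  refine D_congr _ (fun j _ => ?_) _
  rw [show (1 + t3) / 2 = 1 / 2 + t3 - 1 / 2 * t3 by ring, ← D_right]

end

/-- position of the coefficient `(i, j, k)` -/
def pos (n2 n3 i j k : ℕ) : ℕ := i * ((n3 + 1) * (n2 + 1)) + j * (n3 + 1) + k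

section

variable {n1 n2 n3 i j k : ℕ}

theorem pos_div1 (hj : j ≤ n2) (hk : k ≤ n3) :
    pos n2 n3 i j k / ((n3 + 1) * (n2 + 1)) = i ∧
    pos n2 n3 i j k % ((n3 + 1) * (n2 + 1)) = j * (n3 + 1) + k := by
  have h : j * (n3 + 1) + k < (n3 + 1) * (n2 + 1) := by nlinarith
  have hpos : 0 < (n3 + 1) * (n2 + 1) := by positivity
  unfold pos
  rw [add_assoc, mul_comm i]
  constructor
  · rw [Nat.mul_add_div hpos, Nat.div_eq_of_lt h, add_zero]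
  · rw [Nat.mul_add_mod, Nat.mod_eq_of_lt h]

theorem pos_div2 (hk : k ≤ n3) :
    pos n2 n3 i j k / (n3 + 1) = i * (n2 + 1) + j ∧ pos n2 n3 i j k % (n3 + 1) = k := by
  have hpos : 0 < n3 + 1 := by positivity
  have e : pos n2 n3 i j k = (n3 + 1) * (i * (n2 + 1) + j) + k := by unfold pos; ring
  rw [e]
  constructor
  · rw [Nat.mul_add_div hpos, Nat.div_eq_of_lt (by omega), add_zero]
  · rw [Nat.mul_add_mod, Nat.mod_eq_of_lt (by omega)]

theorem crd1 (hi : i ≤ n1) (hj : j ≤ n2) (hk : k ≤ n3) :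
    crd ((n3 + 1) * (n2 + 1)) n1 1 (pos n2 n3 i j k) = i := by
  unfold crd
  have h0 : j * (n3 + 1) + k < (n3 + 1) * (n2 + 1) := by nlinarith
  have h : pos n2 n3 i j k < (n3 + 1) * (n2 + 1) * (n1 + 1) := by
    unfold pos
    calc i * ((n3 + 1) * (n2 + 1)) + j * (n3 + 1) + k < i * ((n3 + 1) * (n2 + 1)) +
          (n3 + 1) * (n2 + 1) := by omega
      _ = (n3 + 1) * (n2 + 1) * (i + 1) := by ring
      _ ≤ _ := Nat.mul_le_mul_left _ (by omega)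
  rw [Nat.div_eq_of_lt h, if_pos (by norm_num), Nat.mod_eq_of_lt h]
  exact (pos_div1 hj hk).1

theorem crd2 (hi : i ≤ n1) (hj : j ≤ n2) (hk : k ≤ n3) :
    crd (n3 + 1) n2 (n1 + 1) (pos n2 n3 i j k) = j := by
  unfold crd
  obtain ⟨h1, h2⟩ := pos_div1 (i := i) hj hk
  rw [h1, if_pos (by omega), h2, mul_comm, Nat.mul_add_div (by positivity),
    Nat.div_eq_of_lt (by omega), add_zero]

theorem crd3 (hi : i ≤ n1) (hj : j ≤ n2) (hk : k ≤ n3) :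
    crd 1 n3 ((n1 + 1) * (n2 + 1)) (pos n2 n3 i j k) = k := by
  unfold crd
  obtain ⟨h1, h2⟩ := pos_div2 (n2 := n2) (i := i) (j := j) hk
  have h3 : i * (n2 + 1) + j < (n1 + 1) * (n2 + 1) := by nlinarith
  rw [one_mul, h1, if_pos h3, h2, Nat.div_one]

end

/-- constant tensor -/
def cst (B n1 n2 n3 v : ℕ) : ℕ := mkL (B * 1) (List.replicate ((n1 + 1) * (n2 + 1) * (n3 + 1)) v)

/-- constant tensor, built hierarchically -/
def cst' (B n1 n2 n3 v : ℕ) : ℕ :=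
  mkL (B * ((n3 + 1) * (n2 + 1))) (List.replicate (n1 + 1)
    (mkL (B * (n3 + 1)) (List.replicate (n2 + 1) (mkL (B * 1) (List.replicate (n3 + 1) v)))))

theorem getD_replicate (n v i : ℕ) : (List.replicate n v).getD i 0 = if i < n then v else 0 := by
  split_ifs with h
  · rw [List.getD_eq_getElem _ _ (by rw [List.length_replicate]; exact h), List.getElem_replicate]
  · rw [List.getD_eq_default _ _ (by rw [List.length_replicate]; omega)]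

theorem slot_cst' {B n1 n2 n3 v : ℕ} (hB : 0 < B) (hv : v < 2 ^ B) (p : ℕ) :
    (slot B (cst' B n1 n2 n3 v) p = v ∨ slot B (cst' B n1 n2 n3 v) p = 0) ∧
    ∀ i j k, i ≤ n1 → j ≤ n2 → k ≤ n3 →
      slot B (cst' B n1 n2 n3 v) (pos n2 n3 i j k) = v := by
  have l3 : ∀ a ∈ List.replicate (n3 + 1) v, a < 2 ^ (B * 1) := fun a ha => by
    rw [List.eq_of_mem_replicate ha, mul_one]; exact hv
  have l2' : mkL (B * 1) (List.replicate (n3 + 1) v) < 2 ^ (B * (n3 + 1)) := by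
    have := mkL_lt (B * 1) _ l3
    rw [List.length_replicate] at this
    refine this.trans_eq ?_
    rw [mul_one]
  have l2 : ∀ a ∈ List.replicate (n2 + 1) (mkL (B * 1) (List.replicate (n3 + 1) v)),
      a < 2 ^ (B * (n3 + 1)) := fun a ha => by
    rw [List.eq_of_mem_replicate ha]; exact l2'
  have l1' : mkL (B * (n3 + 1)) (List.replicate (n2 + 1)
      (mkL (B * 1) (List.replicate (n3 + 1) v))) < 2 ^ (B * ((n3 + 1) * (n2 + 1))) := by
    have := mkL_lt (B * (n3 + 1)) _ l2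
    rwa [List.length_replicate, mul_assoc] at this
  have l1 : ∀ a ∈ List.replicate (n1 + 1) (mkL (B * (n3 + 1)) (List.replicate (n2 + 1)
      (mkL (B * 1) (List.replicate (n3 + 1) v)))), a < 2 ^ (B * ((n3 + 1) * (n2 + 1))) :=
    fun a ha => by rw [List.eq_of_mem_replicate ha]; exact l1'
  have key : ∀ q, slot B (cst' B n1 n2 n3 v) q =
      if q / ((n3 + 1) * (n2 + 1)) < n1 + 1 then
        (if q % ((n3 + 1) * (n2 + 1)) / (n3 + 1) < n2 + 1 then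
          (if q % ((n3 + 1) * (n2 + 1)) % (n3 + 1) / 1 < n3 + 1 then
            slot B v (q % ((n3 + 1) * (n2 + 1)) % (n3 + 1) % 1) else 0) else 0) else 0 := by
    intro q
    unfold cst'
    rw [slot_mkL B _ hB (by positivity) _ l1, getD_replicate]
    split_ifs with h1 h2 h3
    · rw [slot_mkL B _ hB (by positivity) _ l2, getD_replicate, if_pos h2,
        slot_mkL B _ hB (by norm_num) _ l3, getD_replicate, if_pos h3]
    · rw [slot_mkL B _ hB (by positivity) _ l2, getD_replicate, if_pos h2,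
        slot_mkL B _ hB (by norm_num) _ l3, getD_replicate, if_neg h3, slot_zero]
    · rw [slot_mkL B _ hB (by positivity) _ l2, getD_replicate, if_neg h2, slot_zero]
    · exact slot_zero _ _
  have hv0 : slot B v 0 = v := by rw [slot_zero_right, Nat.mod_eq_of_lt hv]
  constructor
  · rw [key]
    split_ifs
    · left; rw [Nat.mod_one, hv0]
    · right; rfl
    · right; rfl
    · right; rfl
  · intro i j k hi hj hk
    obtain ⟨h1, h2⟩ := pos_div1 (i := i) hj hk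
    rw [key, h1, h2, if_pos (by omega)]
    have h3 : (j * (n3 + 1) + k) / (n3 + 1) = j := by
      rw [mul_comm, Nat.mul_add_div (by positivity), Nat.div_eq_of_lt (by omega), add_zero]
    have h4 : (j * (n3 + 1) + k) % (n3 + 1) = k := by
      rw [mul_comm, Nat.mul_add_mod, Nat.mod_eq_of_lt (by omega)]
    rw [h3, if_pos (by omega), h4, Nat.div_one, if_pos (by omega), Nat.mod_one, hv0]

/-- Parameters: `B` bits per slot, degrees `n1, n2, n3`, threshold `2 ^ κ`, masks. -/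
structure Par where
  B : ℕ
  n1 : ℕ
  n2 : ℕ
  n3 : ℕ
  κ : ℕ

/-- The recursive test. `u i v` describe the box `[a1/2^e1, (a1+1)/2^e1] × …`; `skip` says that the
box is outside the region. `thr` is the packed threshold, `MF1, MF2, MF3` are the floor masks. -/
def chk (q : Par) (thr MF1 MF2 MF3 : ℕ) (skip : ℕ → ℕ → ℕ → ℕ → ℕ → ℕ → Bool) :
    ℕ → ℕ → ℕ → ℕ → ℕ → ℕ → ℕ → ℕ → ℕ → Bool
  | 0, _, e1, a1, e2, a2, e3, a3, T => Nat.beq (T &&& thr) thr || skip e1 a1 e2 a2 e3 a3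
  | f + 1, 0, e1, a1, e2, a2, e3, a3, T => Nat.beq (T &&& thr) thr || (skip e1 a1 e2 a2 e3 a3 ||
      (chk q thr MF1 MF2 MF3 skip f 1 (e1 + 1) (2 * a1) e2 a2 e3 a3
        (splL q.B ((q.n3 + 1) * (q.n2 + 1)) q.n1
          (msk q.B ((q.n3 + 1) * (q.n2 + 1)) q.n1 1) MF1 T) &&
      chk q thr MF1 MF2 MF3 skip f 1 (e1 + 1) (2 * a1 + 1) e2 a2 e3 a3
        (splR q.B ((q.n3 + 1) * (q.n2 + 1)) q.n1
          (msk q.B ((q.n3 + 1) * (q.n2 + 1)) q.n1 1) MF1 T)))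
  | f + 1, 1, e1, a1, e2, a2, e3, a3, T => Nat.beq (T &&& thr) thr || (skip e1 a1 e2 a2 e3 a3 ||
      (chk q thr MF1 MF2 MF3 skip f 2 e1 a1 (e2 + 1) (2 * a2) e3 a3
        (splL q.B (q.n3 + 1) q.n2 (msk q.B (q.n3 + 1) q.n2 (q.n1 + 1)) MF2 T) &&
      chk q thr MF1 MF2 MF3 skip f 2 e1 a1 (e2 + 1) (2 * a2 + 1) e3 a3
        (splR q.B (q.n3 + 1) q.n2 (msk q.B (q.n3 + 1) q.n2 (q.n1 + 1)) MF2 T)))
  | f + 1, _ + 2, e1, a1, e2, a2, e3, a3, T => Nat.beq (T &&& thr) thr ||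
      (skip e1 a1 e2 a2 e3 a3 ||
      (chk q thr MF1 MF2 MF3 skip f 0 e1 a1 e2 a2 (e3 + 1) (2 * a3)
        (splL q.B 1 q.n3 (msk q.B 1 q.n3 ((q.n1 + 1) * (q.n2 + 1))) MF3 T) &&
      chk q thr MF1 MF2 MF3 skip f 0 e1 a1 e2 a2 (e3 + 1) (2 * a3 + 1)
        (splR q.B 1 q.n3 (msk q.B 1 q.n3 ((q.n1 + 1) * (q.n2 + 1))) MF3 T)))

/-- value of a packed tensor -/
noncomputable def val (q : Par) (T : ℕ) (t1 t2 t3 : ℝ) : ℝ :=
  E3 q.n1 q.n2 q.n3 (fun i j k => (slot q.B T (pos q.n2 q.n3 i j k) : ℝ)) t1 t2 t3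

/-- conditions on the parameters -/
structure Par.OK (q : Par) : Prop where
  h1 : q.n1 + (q.κ + 1) < q.B
  h2 : q.n2 + (q.κ + 1) < q.B
  h3 : q.n3 + (q.κ + 1) < q.B

/-- region predicate and its box test -/
structure SkipOK (skip : ℕ → ℕ → ℕ → ℕ → ℕ → ℕ → Bool) (reg : ℝ → ℝ → ℝ → Prop) : Prop where
  sound : ∀ e1 a1 e2 a2 e3 a3, skip e1 a1 e2 a2 e3 a3 = true → ∀ t1 t2 t3 : ℝ,
    0 ≤ t1 → t1 ≤ 1 → 0 ≤ t2 → t2 ≤ 1 → 0 ≤ t3 → t3 ≤ 1 →
    a1 < 2 ^ e1 → a2 < 2 ^ e2 → a3 < 2 ^ e3 →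
    ¬ reg ((a1 + t1) / 2 ^ e1) ((a2 + t2) / 2 ^ e2) ((a3 + t3) / 2 ^ e3)

theorem val_of_test {q : Par} (hq : q.OK) {T : ℕ}
    (h : Nat.beq (T &&& cst' q.B q.n1 q.n2 q.n3 (2 ^ q.κ)) (cst' q.B q.n1 q.n2 q.n3 (2 ^ q.κ)) =
      true) {t1 t2 t3 : ℝ} (h1 : 0 ≤ t1) (h1' : t1 ≤ 1) (h2 : 0 ≤ t2) (h2' : t2 ≤ 1) (h3 : 0 ≤ t3)
    (h3' : t3 ≤ 1) : (2:ℝ) ^ q.κ ≤ val q T t1 t2 t3 := by
  have hB : 0 < q.B := by have := hq.h1; omega
  have hv : 2 ^ q.κ < 2 ^ q.B := Nat.pow_lt_pow_right (by norm_num) (by have := hq.h1; omega)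
  have h0 := Nat.eq_of_beq_eq_true h
  unfold val
  rw [← E3_const (n1 := q.n1) (n2 := q.n2) (n3 := q.n3) (t1 := t1) (t2 := t2) (t3 := t3)
    ((2:ℝ) ^ q.κ)]
  refine E3_mono (fun i j k hi hj hk => ?_) h1 h1' h2 h2' h3 h3'
  have h4 := (slot_cst' (n1 := q.n1) (n2 := q.n2) (n3 := q.n3) hB hv 0).2 i j k hi hj hk
  have h5 := congrArg (fun U => slot q.B U (pos q.n2 q.n3 i j k)) h0
  simp only [slot_land, h4] at h5
  have h6 : 2 ^ q.κ ≤ slot q.B T (pos q.n2 q.n3 i j k) := by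
    calc 2 ^ q.κ = slot q.B T (pos q.n2 q.n3 i j k) &&& 2 ^ q.κ := h5.symm
      _ ≤ _ := Nat.and_le_left
  exact_mod_cast h6

theorem floor_mask {q : Par} (hq : q.OK) {n : ℕ} (hn : n + (q.κ + 1) < q.B) (p : ℕ) :
    (slot q.B (cst' q.B q.n1 q.n2 q.n3 (2 ^ (q.B - n) - 1)) p = 2 ^ (q.B - n) - 1 ∨
      slot q.B (cst' q.B q.n1 q.n2 q.n3 (2 ^ (q.B - n) - 1)) p = 0) ∧
    ∀ i j k, i ≤ q.n1 → j ≤ q.n2 → k ≤ q.n3 →
      slot q.B (cst' q.B q.n1 q.n2 q.n3 (2 ^ (q.B - n) - 1)) (pos q.n2 q.n3 i j k) =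
        2 ^ (q.B - n) - 1 := by
  refine slot_cst' (by omega) ?_ p
  have h1 : (2:ℕ) ^ (q.B - n) ≤ 2 ^ q.B := Nat.pow_le_pow_right (by norm_num) (Nat.sub_le _ _)
  have h2 : 0 < (2:ℕ) ^ (q.B - n) := by positivity
  omega

theorem pow_mul_lt {n κ B : ℕ} (h : n + (κ + 1) < B) : 2 ^ n * 2 ^ (κ + 1) < 2 ^ B := by
  rw [← pow_add]
  exact Nat.pow_lt_pow_right (by norm_num) h

section

variable {q : Par} (hq : q.OK) {T : ℕ} (hT : ∀ p, slot q.B T p ≤ 2 ^ (q.κ + 1))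
  {t1 t2 t3 : ℝ} (h1 : 0 ≤ t1) (h1' : t1 ≤ 1) (h2 : 0 ≤ t2) (h2' : t2 ≤ 1) (h3 : 0 ≤ t3)
  (h3' : t3 ≤ 1)

include hq hT h1 h1' h2 h2' h3 h3'

theorem val_splL1 : val q (splL q.B ((q.n3 + 1) * (q.n2 + 1)) q.n1
    (msk q.B ((q.n3 + 1) * (q.n2 + 1)) q.n1 1)
    (cst' q.B q.n1 q.n2 q.n3 (2 ^ (q.B - q.n1) - 1)) T) t1 t2 t3 ≤ val q T (t1 / 2) t2 t3 := by
  unfold val
  rw [← E3_left1]
  refine E3_mono (fun i j k hi hj hk => ?_) h1 h1' h2 h2' h3 h3'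
  have hB : 0 < q.B := by have := hq.h1; omega
  have hs : 0 < (q.n3 + 1) * (q.n2 + 1) := by positivity
  have hc := crd1 (n1 := q.n1) hi hj hk
  have hge : (q.n3 + 1) * (q.n2 + 1) * i ≤ pos q.n2 q.n3 i j k := by unfold pos; nlinarith
  refine (splL_val (κ := crd ((q.n3 + 1) * (q.n2 + 1)) q.n1 1) (by positivity) hT (pow_mul_lt hq.h1)
    (fun r hr p => slot_msk hB hs r hr p)
    ((floor_mask hq hq.h1 0).2 i j k hi hj hk) (by rw [hc]; exact hi) (by rw [hc]; exact hge)).trans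
    (le_of_eq ?_)
  rw [hc]
  refine D_congr _ (fun m _ => ?_) _
  congr 2
  unfold pos
  have e : i * ((q.n3 + 1) * (q.n2 + 1)) + j * (q.n3 + 1) + k - (q.n3 + 1) * (q.n2 + 1) * i =
      j * (q.n3 + 1) + k := by
    have : i * ((q.n3 + 1) * (q.n2 + 1)) = (q.n3 + 1) * (q.n2 + 1) * i := by ring
    omega
  rw [e]
  ring

theorem val_splR1 : val q (splR q.B ((q.n3 + 1) * (q.n2 + 1)) q.n1
    (msk q.B ((q.n3 + 1) * (q.n2 + 1)) q.n1 1)
    (cst' q.B q.n1 q.n2 q.n3 (2 ^ (q.B - q.n1) - 1)) T) t1 t2 t3 ≤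
    val q T ((1 + t1) / 2) t2 t3 := by
  unfold val
  rw [← E3_right1]
  refine E3_mono (fun i j k hi hj hk => ?_) h1 h1' h2 h2' h3 h3'
  have hB : 0 < q.B := by have := hq.h1; omega
  have hs : 0 < (q.n3 + 1) * (q.n2 + 1) := by positivity
  have hc := crd1 (n1 := q.n1) hi hj hk
  refine (splR_val (κ := crd ((q.n3 + 1) * (q.n2 + 1)) q.n1 1) (by positivity) hT (pow_mul_lt hq.h1)
    (fun r hr p => slot_msk hB hs r hr p)
    ((floor_mask hq hq.h1 0).2 i j k hi hj hk) (by rw [hc]; exact hi)).trans (le_of_eq ?_)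
  rw [hc]
  refine D_congr _ (fun m _ => ?_) _
  congr 2
  unfold pos
  ring

theorem val_splL2 : val q (splL q.B (q.n3 + 1) q.n2 (msk q.B (q.n3 + 1) q.n2 (q.n1 + 1))
    (cst' q.B q.n1 q.n2 q.n3 (2 ^ (q.B - q.n2) - 1)) T) t1 t2 t3 ≤ val q T t1 (t2 / 2) t3 := by
  unfold val
  rw [← E3_left2]
  refine E3_mono (fun i j k hi hj hk => ?_) h1 h1' h2 h2' h3 h3'
  have hB : 0 < q.B := by have := hq.h1; omega
  have hs : 0 < q.n3 + 1 := by positivity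
  have hc := crd2 (n1 := q.n1) hi hj hk
  have hge : (q.n3 + 1) * j ≤ pos q.n2 q.n3 i j k := by
    unfold pos
    have : j * (q.n3 + 1) = (q.n3 + 1) * j := by ring
    omega
  refine (splL_val (κ := crd (q.n3 + 1) q.n2 (q.n1 + 1)) (by positivity) hT (pow_mul_lt hq.h2)
    (fun r hr p => slot_msk hB hs r hr p)
    ((floor_mask hq hq.h2 0).2 i j k hi hj hk) (by rw [hc]; exact hj) (by rw [hc]; exact hge)).trans
    (le_of_eq ?_)
  rw [hc]
  refine D_congr _ (fun m _ => ?_) _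
  congr 2
  unfold pos
  have e : i * ((q.n3 + 1) * (q.n2 + 1)) + j * (q.n3 + 1) + k - (q.n3 + 1) * j =
      i * ((q.n3 + 1) * (q.n2 + 1)) + k := by
    have : j * (q.n3 + 1) = (q.n3 + 1) * j := by ring
    omega
  rw [e]
  ring

theorem val_splR2 : val q (splR q.B (q.n3 + 1) q.n2 (msk q.B (q.n3 + 1) q.n2 (q.n1 + 1))
    (cst' q.B q.n1 q.n2 q.n3 (2 ^ (q.B - q.n2) - 1)) T) t1 t2 t3 ≤
    val q T t1 ((1 + t2) / 2) t3 := by
  unfold val
  rw [← E3_right2]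
  refine E3_mono (fun i j k hi hj hk => ?_) h1 h1' h2 h2' h3 h3'
  have hB : 0 < q.B := by have := hq.h1; omega
  have hs : 0 < q.n3 + 1 := by positivity
  have hc := crd2 (n1 := q.n1) hi hj hk
  refine (splR_val (κ := crd (q.n3 + 1) q.n2 (q.n1 + 1)) (by positivity) hT (pow_mul_lt hq.h2)
    (fun r hr p => slot_msk hB hs r hr p)
    ((floor_mask hq hq.h2 0).2 i j k hi hj hk) (by rw [hc]; exact hj)).trans (le_of_eq ?_)
  rw [hc]
  refine D_congr _ (fun m _ => ?_) _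
  congr 2
  unfold pos
  ring

theorem val_splL3 : val q (splL q.B 1 q.n3 (msk q.B 1 q.n3 ((q.n1 + 1) * (q.n2 + 1)))
    (cst' q.B q.n1 q.n2 q.n3 (2 ^ (q.B - q.n3) - 1)) T) t1 t2 t3 ≤ val q T t1 t2 (t3 / 2) := by
  unfold val
  rw [← E3_left3]
  refine E3_mono (fun i j k hi hj hk => ?_) h1 h1' h2 h2' h3 h3'
  have hB : 0 < q.B := by have := hq.h1; omega
  have hc := crd3 (n1 := q.n1) hi hj hk
  have hge : 1 * k ≤ pos q.n2 q.n3 i j k := by unfold pos; omega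
  refine (splL_val (κ := crd 1 q.n3 ((q.n1 + 1) * (q.n2 + 1))) (by positivity) hT (pow_mul_lt hq.h3)
    (fun r hr p => slot_msk hB one_pos r hr p)
    ((floor_mask hq hq.h3 0).2 i j k hi hj hk) (by rw [hc]; exact hk) (by rw [hc]; exact hge)).trans
    (le_of_eq ?_)
  rw [hc]
  refine D_congr _ (fun m _ => ?_) _
  congr 2
  unfold pos
  omega

theorem val_splR3 : val q (splR q.B 1 q.n3 (msk q.B 1 q.n3 ((q.n1 + 1) * (q.n2 + 1)))
    (cst' q.B q.n1 q.n2 q.n3 (2 ^ (q.B - q.n3) - 1)) T) t1 t2 t3 ≤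
    val q T t1 t2 ((1 + t3) / 2) := by
  unfold val
  rw [← E3_right3]
  refine E3_mono (fun i j k hi hj hk => ?_) h1 h1' h2 h2' h3 h3'
  have hB : 0 < q.B := by have := hq.h1; omega
  have hc := crd3 (n1 := q.n1) hi hj hk
  refine (splR_val (κ := crd 1 q.n3 ((q.n1 + 1) * (q.n2 + 1))) (by positivity) hT (pow_mul_lt hq.h3)
    (fun r hr p => slot_msk hB one_pos r hr p)
    ((floor_mask hq hq.h3 0).2 i j k hi hj hk) (by rw [hc]; exact hk)).trans (le_of_eq ?_)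
  rw [hc]
  refine D_congr _ (fun m _ => ?_) _
  congr 2
  unfold pos
  omega

end

theorem splL_ok {q : Par} (hq : q.OK) {T s n cnt : ℕ} (hs : 0 < s) (hn : n + (q.κ + 1) < q.B)
    (hT : ∀ p, slot q.B T p ≤ 2 ^ (q.κ + 1)) (p : ℕ) :
    slot q.B (splL q.B s n (msk q.B s n cnt) (cst' q.B q.n1 q.n2 q.n3 (2 ^ (q.B - n) - 1)) T) p ≤
      2 ^ (q.κ + 1) :=
  splL_bd (κ := crd s n cnt) (by positivity) hT (pow_mul_lt hn)
    (fun r hr p => slot_msk (by omega) hs r hr p) (fun p => (floor_mask hq hn p).1) p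

theorem splR_ok {q : Par} (hq : q.OK) {T s n cnt : ℕ} (hs : 0 < s) (hn : n + (q.κ + 1) < q.B)
    (hT : ∀ p, slot q.B T p ≤ 2 ^ (q.κ + 1)) (p : ℕ) :
    slot q.B (splR q.B s n (msk q.B s n cnt) (cst' q.B q.n1 q.n2 q.n3 (2 ^ (q.B - n) - 1)) T) p ≤
      2 ^ (q.κ + 1) :=
  splR_bd (κ := crd s n cnt) (by positivity) hT (pow_mul_lt hn)
    (fun r hr p => slot_msk (by omega) hs r hr p) (fun p => (floor_mask hq hn p).1) p

theorem half_lo {t : ℝ} (h0 : 0 ≤ t) (h : t ≤ 1 / 2) : 0 ≤ 2 * t ∧ 2 * t ≤ 1 := ⟨by linarith, by linarith⟩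

theorem half_hi {t : ℝ} (h1 : t ≤ 1) (h : 1 / 2 ≤ t) : 0 ≤ 2 * t - 1 ∧ 2 * t - 1 ≤ 1 :=
  ⟨by linarith, by linarith⟩

theorem box_lo (e a : ℕ) (t : ℝ) : (((2 * a : ℕ) : ℝ) + 2 * t) / 2 ^ (e + 1) = (a + t) / 2 ^ e := by
  rw [pow_succ]; push_cast; field_simp

theorem box_hi (e a : ℕ) (t : ℝ) :
    (((2 * a + 1 : ℕ) : ℝ) + (2 * t - 1)) / 2 ^ (e + 1) = (a + t) / 2 ^ e := by
  rw [pow_succ]; push_cast; field_simp; ring

/-- SOUNDNESS of the test. -/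
theorem chk_sound (q : Par) (hq : q.OK) (skip : ℕ → ℕ → ℕ → ℕ → ℕ → ℕ → Bool)
    (reg : ℝ → ℝ → ℝ → Prop) (hskip : SkipOK skip reg) (f : ℕ) :
    ∀ (d e1 a1 e2 a2 e3 a3 T : ℕ),
    chk q (cst' q.B q.n1 q.n2 q.n3 (2 ^ q.κ)) (cst' q.B q.n1 q.n2 q.n3 (2 ^ (q.B - q.n1) - 1))
      (cst' q.B q.n1 q.n2 q.n3 (2 ^ (q.B - q.n2) - 1))
      (cst' q.B q.n1 q.n2 q.n3 (2 ^ (q.B - q.n3) - 1)) skip f d e1 a1 e2 a2 e3 a3 T = true →
    (∀ p, slot q.B T p ≤ 2 ^ (q.κ + 1)) → a1 < 2 ^ e1 → a2 < 2 ^ e2 → a3 < 2 ^ e3 →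
    ∀ t1 t2 t3 : ℝ, 0 ≤ t1 → t1 ≤ 1 → 0 ≤ t2 → t2 ≤ 1 → 0 ≤ t3 → t3 ≤ 1 →
    reg ((a1 + t1) / 2 ^ e1) ((a2 + t2) / 2 ^ e2) ((a3 + t3) / 2 ^ e3) →
    (2:ℝ) ^ q.κ ≤ val q T t1 t2 t3 := by
  induction f with
  | zero =>
    intro d e1 a1 e2 a2 e3 a3 T h hT ha1 ha2 ha3 t1 t2 t3 h1 h1' h2 h2' h3 h3' hreg
    simp only [chk, Bool.or_eq_true] at h
    rcases h with h | h
    · exact val_of_test hq h h1 h1' h2 h2' h3 h3'
    · exact absurd hreg (hskip.sound _ _ _ _ _ _ h _ _ _ h1 h1' h2 h2' h3 h3' ha1 ha2 ha3)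
  | succ f ih =>
    intro d e1 a1 e2 a2 e3 a3 T h hT ha1 ha2 ha3 t1 t2 t3 h1 h1' h2 h2' h3 h3' hreg
    have pw : ∀ {a e : ℕ}, a < 2 ^ e → 2 * a < 2 ^ (e + 1) ∧ 2 * a + 1 < 2 ^ (e + 1) := by
      intro a e h
      rw [pow_succ]
      constructor <;> omega
    match d, h with
    | 0, h =>
      simp only [chk, Bool.or_eq_true, Bool.and_eq_true] at h
      rcases h with h | h | ⟨hL, hR⟩
      · exact val_of_test hq h h1 h1' h2 h2' h3 h3'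
      · exact absurd hreg (hskip.sound _ _ _ _ _ _ h _ _ _ h1 h1' h2 h2' h3 h3' ha1 ha2 ha3)
      · rcases le_total t1 (1 / 2) with ht | ht
        · obtain ⟨b1, b2⟩ := half_lo h1 ht
          have h5 := ih 1 _ _ _ _ _ _ _ hL (splL_ok hq (by positivity) hq.h1 hT) (pw ha1).1 ha2 ha3
            (2 * t1) t2 t3 b1 b2 h2 h2' h3 h3' (by rw [box_lo]; exact hreg)
          have h6 := val_splL1 hq hT b1 b2 h2 h2' h3 h3'
          rw [show 2 * t1 / 2 = t1 by ring] at h6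
          exact h5.trans h6
        · obtain ⟨b1, b2⟩ := half_hi h1' ht
          have h5 := ih 1 _ _ _ _ _ _ _ hR (splR_ok hq (by positivity) hq.h1 hT) (pw ha1).2 ha2 ha3
            (2 * t1 - 1) t2 t3 b1 b2 h2 h2' h3 h3' (by rw [box_hi]; exact hreg)
          have h6 := val_splR1 hq hT b1 b2 h2 h2' h3 h3'
          rw [show (1 + (2 * t1 - 1)) / 2 = t1 by ring] at h6
          exact h5.trans h6
    | 1, h =>
      simp only [chk, Bool.or_eq_true, Bool.and_eq_true] at h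
      rcases h with h | h | ⟨hL, hR⟩
      · exact val_of_test hq h h1 h1' h2 h2' h3 h3'
      · exact absurd hreg (hskip.sound _ _ _ _ _ _ h _ _ _ h1 h1' h2 h2' h3 h3' ha1 ha2 ha3)
      · rcases le_total t2 (1 / 2) with ht | ht
        · obtain ⟨b1, b2⟩ := half_lo h2 ht
          have h5 := ih 2 _ _ _ _ _ _ _ hL (splL_ok hq (by positivity) hq.h2 hT) ha1 (pw ha2).1 ha3
            t1 (2 * t2) t3 h1 h1' b1 b2 h3 h3' (by rw [box_lo]; exact hreg)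
          have h6 := val_splL2 hq hT h1 h1' b1 b2 h3 h3'
          rw [show 2 * t2 / 2 = t2 by ring] at h6
          exact h5.trans h6
        · obtain ⟨b1, b2⟩ := half_hi h2' ht
          have h5 := ih 2 _ _ _ _ _ _ _ hR (splR_ok hq (by positivity) hq.h2 hT) ha1 (pw ha2).2 ha3
            t1 (2 * t2 - 1) t3 h1 h1' b1 b2 h3 h3' (by rw [box_hi]; exact hreg)
          have h6 := val_splR2 hq hT h1 h1' b1 b2 h3 h3'
          rw [show (1 + (2 * t2 - 1)) / 2 = t2 by ring] at h6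
          exact h5.trans h6
    | d + 2, h =>
      simp only [chk, Bool.or_eq_true, Bool.and_eq_true] at h
      rcases h with h | h | ⟨hL, hR⟩
      · exact val_of_test hq h h1 h1' h2 h2' h3 h3'
      · exact absurd hreg (hskip.sound _ _ _ _ _ _ h _ _ _ h1 h1' h2 h2' h3 h3' ha1 ha2 ha3)
      · rcases le_total t3 (1 / 2) with ht | ht
        · obtain ⟨b1, b2⟩ := half_lo h3 ht
          have h5 := ih 0 _ _ _ _ _ _ _ hL (splL_ok hq one_pos hq.h3 hT) ha1 ha2 (pw ha3).1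
            t1 t2 (2 * t3) h1 h1' h2 h2' b1 b2 (by rw [box_lo]; exact hreg)
          have h6 := val_splL3 hq hT h1 h1' h2 h2' b1 b2
          rw [show 2 * t3 / 2 = t3 by ring] at h6
          exact h5.trans h6
        · obtain ⟨b1, b2⟩ := half_hi h3' ht
          have h5 := ih 0 _ _ _ _ _ _ _ hR (splR_ok hq one_pos hq.h3 hT) ha1 ha2 (pw ha3).2
            t1 t2 (2 * t3 - 1) h1 h1' h2 h2' b1 b2 (by rw [box_hi]; exact hreg)
          have h6 := val_splR3 hq hT h1 h1' h2 h2' b1 b2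
          rw [show (1 + (2 * t3 - 1)) / 2 = t3 by ring] at h6
          exact h5.trans h6

end Pool.Agent.Helper2.PB
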