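import Pool.Agent.Helper2.OC.Bern
import Pool.Agent.Helper2.PB.Chk

/-!
# Integer polynomials in three variables and their packed Bernstein tensors
-/

namespace Pool.Agent.Helper2.PB

open Pool.Agent.Helper2.OC.Bern (ev ev2 add add2 smul smul2 mul rmul mul2 ev_add ev2_add ev_smul
  ev2_smul ev_mul ev2_rmul ev2_mul)

/-- polynomials in three variables -/
abbrev P3 : Type := List (List (List ℤ))

/-- evaluation -/
def ev3 : P3 → ℝ → ℝ → ℝ → ℝ
  | [], _, _, _ => 0
  | l :: L, x, y, z => ev2 l y z + x * ev3 L x y z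

def add3 : P3 → P3 → P3
  | [], m => m
  | l, [] => l
  | a :: l, b :: m => add2 a b :: add3 l m

theorem ev3_add (l m : P3) (x y z : ℝ) : ev3 (add3 l m) x y z = ev3 l x y z + ev3 m x y z := by
  induction l generalizing m with
  | nil => simp [add3, ev3]
  | cons a l ih =>
    cases m with
    | nil => simp [add3, ev3]
    | cons b m => simp only [add3, ev3, ih, ev2_add]; ring

def smul3 (c : ℤ) (L : P3) : P3 := L.map (smul2 c)

theorem ev3_smul (c : ℤ) (l : P3) (x y z : ℝ) : ev3 (smul3 c l) x y z = c * ev3 l x y z := by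
  induction l with
  | nil => simp [smul3, ev3]
  | cons a l ih =>
    simp only [smul3, List.map_cons, ev3] at *
    rw [ih, ev2_smul]; ring

def rmul3 (l : List (List ℤ)) (M : P3) : P3 := M.map (mul2 l)

theorem ev3_rmul (l : List (List ℤ)) (M : P3) (x y z : ℝ) :
    ev3 (rmul3 l M) x y z = ev2 l y z * ev3 M x y z := by
  induction M with
  | nil => simp [rmul3, ev3]
  | cons a M ih =>
    simp only [rmul3, List.map_cons, ev3] at *
    rw [ih, ev2_mul]; ring

def mul3 : P3 → P3 → P3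
  | [], _ => []
  | a :: l, m => add3 (rmul3 a m) ([] :: mul3 l m)

theorem ev3_mul (l m : P3) (x y z : ℝ) : ev3 (mul3 l m) x y z = ev3 l x y z * ev3 m x y z := by
  induction l with
  | nil => simp [mul3, ev3]
  | cons a l ih => simp only [mul3, ev3, ev3_add, ev3_rmul, ih, ev2]; ring

/-- composition of a row with a polynomial in three variables -/
def cmp1 (Z : P3) : List ℤ → P3
  | [] => []
  | c :: l => add3 [[[c]]] (mul3 Z (cmp1 Z l))

theorem ev3_cmp1 (Z : P3) (l : List ℤ) (x y z : ℝ) :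
    ev3 (cmp1 Z l) x y z = ev l (ev3 Z x y z) := by
  induction l with
  | nil => simp [cmp1, ev3, ev]
  | cons c l ih => simp only [cmp1, ev3_add, ev3_mul, ev3, ev2, ev, ih]; ring

/-- composition of a polynomial in two variables with two polynomials in three variables -/
def cmp2 (X Z : P3) : List (List ℤ) → P3
  | [] => []
  | l :: L => add3 (cmp1 Z l) (mul3 X (cmp2 X Z L))

theorem ev3_cmp2 (X Z : P3) (L : List (List ℤ)) (x y z : ℝ) :
    ev3 (cmp2 X Z L) x y z = ev2 L (ev3 X x y z) (ev3 Z x y z) := by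
  induction L with
  | nil => simp [cmp2, ev2, ev3]
  | cons l L ih => simp only [cmp2, ev3_add, ev3_mul, ev2, ih, ev3_cmp1]

section generic

variable {α : Type}

/-- partial sums -/
def scan (ad : α → α → α) : α → List α → List α
  | s, [] => [s]
  | s, b :: l => s :: scan ad (ad s b) l

/-- binomial transform -/
def tr (ad : α → α → α) : List α → List α
  | [] => []
  | a :: l => scan ad a (tr ad l)

/-- weights, with padding -/
def zw (sm : ℤ → α → α) (z : α) : List ℤ → List α → List α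
  | [], _ => []
  | _ :: ws, [] => z :: zw sm z ws []
  | w :: ws, a :: l => sm w a :: zw sm z ws l

theorem scan_length (ad : α → α → α) (s : α) (l : List α) :
    (scan ad s l).length = l.length + 1 := by
  induction l generalizing s with
  | nil => rfl
  | cons b l ih => simp [scan, ih]

theorem tr_length (ad : α → α → α) (l : List α) : (tr ad l).length = l.length := by
  induction l with
  | nil => rfl
  | cons a l ih => simp [tr, scan_length, ih]

theorem zw_length (sm : ℤ → α → α) (z : α) (ws : List ℤ) (l : List α) :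
    (zw sm z ws l).length = ws.length := by
  induction ws generalizing l with
  | nil => rfl
  | cons w ws ih => cases l <;> simp [zw, ih]

/-- `∑ g(c_m) C(i, k + m)` -/
noncomputable def SB (g : α → ℝ) : List α → ℕ → ℕ → ℝ
  | [], _, _ => 0
  | a :: l, k, i => g a * (i.choose k : ℝ) + SB g l (k + 1) i

theorem SB_succ (g : α → ℝ) (l : List α) (k i : ℕ) :
    SB g l (k + 1) (i + 1) = SB g l (k + 1) i + SB g l k i := by
  induction l generalizing k with
  | nil => simp [SB]
  | cons a l ih =>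
    simp only [SB]
    rw [ih, Nat.choose_succ_succ]
    push_cast
    ring

theorem SB_zero (g : α → ℝ) (l : List α) (k : ℕ) : SB g l (k + 1) 0 = 0 := by
  induction l generalizing k with
  | nil => rfl
  | cons a l ih => simp [SB, ih]

theorem scan_getD (g : α → ℝ) (ad : α → α → α) (hg : ∀ a b, g (ad a b) = g a + g b) (z : α)
    (f : ℕ → ℝ) (l : List α) (s : α)
    (h0 : g s = f 0) (h : ∀ i, i < l.length → f (i + 1) = f i + g (l.getD i z)) :
    ∀ i, i ≤ l.length → g ((scan ad s l).getD i z) = f i := by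
  induction l generalizing s f with
  | nil =>
    intro i hi
    have : i = 0 := by simpa using hi
    subst this
    simpa [scan] using h0
  | cons b l ih =>
    intro i hi
    cases i with
    | zero => simpa [scan] using h0
    | succ i =>
      simp only [scan, List.getD_cons_succ]
      refine ih (fun i => f (i + 1)) (ad s b) ?_ ?_ i (by simpa using hi)
      · rw [hg, h0]
        have := h 0 (by simp)
        simpa using this.symm
      · intro j hj
        have := h (j + 1) (by simpa using hj)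
        simpa using this

theorem tr_getD (g : α → ℝ) (ad : α → α → α) (hg : ∀ a b, g (ad a b) = g a + g b) (z : α)
    (l : List α) : ∀ i, i < l.length → g ((tr ad l).getD i z) = SB g l 0 i := by
  induction l with
  | nil => intro i hi; simp at hi
  | cons a l ih =>
    intro i hi
    simp only [tr]
    refine scan_getD g ad hg z (fun i => SB g (a :: l) 0 i) (tr ad l) a ?_ ?_ i ?_
    · simp [SB, SB_zero]
    · intro j hj
      rw [tr_length] at hj
      rw [ih j hj]
      simp only [SB]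
      rw [SB_succ]
      simp only [Nat.choose_zero_right]
      ring
    · rw [tr_length]
      simp at hi
      omega

/-- `∑ g(c_m) C(n, k + m) t ^ (k + m)` -/
noncomputable def SD (g : α → ℝ) (n : ℕ) (t : ℝ) : List α → ℕ → ℝ
  | [], _ => 0
  | a :: l, k => g a * ((n.choose k : ℝ) * t ^ k) + SD g n t l (k + 1)

theorem D_SB (g : α → ℝ) (n : ℕ) (t : ℝ) (l : List α) (k : ℕ) :
    D n (fun i => SB g l k i) t = SD g n t l k := by
  induction l generalizing k with
  | nil => simp only [SB, SD]; exact D_const n 0 t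
  | cons a l ih =>
    simp only [SB, SD]
    rw [D_add, D_smul, D_choose, ih]

/-- polynomial evaluation with coefficients evaluated by `g` -/
noncomputable def evG (g : α → ℝ) (t : ℝ) : List α → ℝ
  | [] => 0
  | a :: l => g a + t * evG g t l

/-- weights are correct -/
def wOK (n : ℕ) (L : ℤ) : List ℤ → ℕ → Prop
  | [], _ => True
  | w :: ws, k => w * (n.choose k : ℤ) = L ∧ wOK n L ws (k + 1)

theorem SD_nil (g : α → ℝ) (sm : ℤ → α → α) (z : α) (hz : g z = 0) (n : ℕ) (t : ℝ)
    (ws : List ℤ) (k : ℕ) : SD g n t (zw sm z ws []) k = 0 := by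
  induction ws generalizing k with
  | nil => rfl
  | cons w ws ih => simp only [zw, SD]; rw [ih, hz]; ring

theorem SD_zw (g : α → ℝ) (sm : ℤ → α → α) (hs : ∀ c a, g (sm c a) = c * g a) (z : α)
    (hz : g z = 0) (n : ℕ) (L : ℤ) (t : ℝ) (ws : List ℤ) (l : List α) (k : ℕ)
    (hw : wOK n L ws k) (hl : l.length ≤ ws.length) :
    SD g n t (zw sm z ws l) k = L * (t ^ k * evG g t l) := by
  induction ws generalizing l k with
  | nil =>
    have : l = [] := by
      apply List.length_eq_zero_iff.mp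
      simpa using hl
    subst this
    simp [zw, SD, evG]
  | cons w ws ih =>
    cases l with
    | nil =>
      simp only [zw, SD, evG]
      rw [SD_nil g sm z hz, hz]
      ring
    | cons a l =>
      simp only [zw, SD, evG]
      rw [ih l (k + 1) hw.2 (by simpa using hl), hs]
      have h1 : (w : ℝ) * (n.choose k : ℝ) = L := by exact_mod_cast hw.1
      rw [← h1]
      ring

/-- GENERIC TRANSFORM -/
theorem bern_generic (g : α → ℝ) (ad : α → α → α) (hg : ∀ a b, g (ad a b) = g a + g b)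
    (sm : ℤ → α → α) (hs : ∀ c a, g (sm c a) = c * g a) (z : α)
    (hz : g z = 0) (n : ℕ) (L : ℤ) (t : ℝ) (ws : List ℤ) (l : List α)
    (hw : wOK n L ws 0) (hn : ws.length = n + 1) (hl : l.length ≤ ws.length) :
    D n (fun i => g ((tr ad (zw sm z ws l)).getD i z)) t = L * evG g t l := by
  have h1 : D n (fun i => g ((tr ad (zw sm z ws l)).getD i z)) t =
      D n (fun i => SB g (zw sm z ws l) 0 i) t :=
    D_congr n (fun i hi => tr_getD g ad hg z _ i (by rw [zw_length]; omega)) t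
  rw [h1, D_SB, SD_zw g sm hs z hz n L t ws l 0 hw hl]
  simp

end generic

/-! ### three levels -/

/-- functional on rows -/
noncomputable def g1 (n3 : ℕ) (t3 : ℝ) (l : List ℤ) : ℝ := D n3 (fun k => ((l.getD k 0 : ℤ) : ℝ)) t3

noncomputable def g2 (n2 n3 : ℕ) (t2 t3 : ℝ) (M : List (List ℤ)) : ℝ :=
  D n2 (fun j => g1 n3 t3 (M.getD j [])) t2

theorem getD_add (a b : List ℤ) (k : ℕ) : (add a b).getD k 0 = a.getD k 0 + b.getD k 0 := by
  induction a generalizing b k with
  | nil => simp [add]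
  | cons x a ih =>
    cases b with
    | nil => simp [add]
    | cons y b =>
      cases k with
      | zero => simp [add]
      | succ k => simp only [add, List.getD_cons_succ]; exact ih b k

theorem g1_add (n3 : ℕ) (t3 : ℝ) (a b : List ℤ) : g1 n3 t3 (add a b) = g1 n3 t3 a + g1 n3 t3 b := by
  unfold g1
  rw [← D_add]
  refine D_congr _ (fun k _ => ?_) _
  rw [getD_add]; push_cast; rfl

theorem getD_smul (c : ℤ) (a : List ℤ) (k : ℕ) : (smul c a).getD k 0 = c * a.getD k 0 := by
  induction a generalizing k with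
  | nil => simp [smul]
  | cons x a ih =>
    cases k with
    | zero => simp [smul]
    | succ k => simp only [smul, List.map_cons, List.getD_cons_succ]; exact ih k

theorem g1_smul (n3 : ℕ) (t3 : ℝ) (c : ℤ) (a : List ℤ) : g1 n3 t3 (smul c a) = c * g1 n3 t3 a := by
  unfold g1
  rw [← D_smul]
  refine D_congr _ (fun k _ => ?_) _
  rw [getD_smul]; push_cast; rfl

theorem g1_nil (n3 : ℕ) (t3 : ℝ) : g1 n3 t3 [] = 0 := by
  unfold g1
  simp only [List.getD_nil, Int.cast_zero]
  exact D_const n3 0 t3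

theorem g2_add (n2 n3 : ℕ) (t2 t3 : ℝ) (a b : List (List ℤ)) :
    g2 n2 n3 t2 t3 (add2 a b) = g2 n2 n3 t2 t3 a + g2 n2 n3 t2 t3 b := by
  unfold g2
  rw [← D_add]
  refine D_congr _ (fun j _ => ?_) _
  have h : ∀ (a b : List (List ℤ)) (j : ℕ), g1 n3 t3 ((add2 a b).getD j []) =
      g1 n3 t3 (a.getD j []) + g1 n3 t3 (b.getD j []) := by
    intro a
    induction a with
    | nil => intro b j; simp [add2, g1_nil]
    | cons x a ih =>
      intro b j
      cases b with
      | nil => simp [add2, g1_nil]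
      | cons y b =>
        cases j with
        | zero => simp [add2, g1_add]
        | succ j => simp only [add2, List.getD_cons_succ]; exact ih b j
  exact h a b j

theorem g2_smul (n2 n3 : ℕ) (t2 t3 : ℝ) (c : ℤ) (a : List (List ℤ)) :
    g2 n2 n3 t2 t3 (smul2 c a) = c * g2 n2 n3 t2 t3 a := by
  unfold g2
  rw [← D_smul]
  refine D_congr _ (fun j _ => ?_) _
  have h : ∀ (a : List (List ℤ)) (j : ℕ), g1 n3 t3 ((smul2 c a).getD j []) =
      c * g1 n3 t3 (a.getD j []) := by
    intro a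
    induction a with
    | nil => intro j; simp [smul2, g1_nil]
    | cons x a ih =>
      intro j
      cases j with
      | zero => simp [smul2, g1_smul]
      | succ j => simp only [smul2, List.map_cons, List.getD_cons_succ]; exact ih j
  exact h a j

theorem g2_nil (n2 n3 : ℕ) (t2 t3 : ℝ) : g2 n2 n3 t2 t3 [] = 0 := by
  unfold g2
  simp only [List.getD_nil, g1_nil]
  exact D_const n2 0 t2

/-- the three transforms -/
def bern1 (w3 : List ℤ) (l : List ℤ) : List ℤ := tr (· + ·) (zw (· * ·) 0 w3 l)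

def bern2 (w2 w3 : List ℤ) (M : List (List ℤ)) : List (List ℤ) :=
  tr add (zw smul [] w2 (M.map (bern1 w3)))

def bern3 (w1 w2 w3 : List ℤ) (F : P3) : P3 :=
  tr add2 (zw smul2 [] w1 (F.map (bern2 w2 w3)))

theorem evG_id (l : List ℤ) (t : ℝ) : evG (fun c : ℤ => (c : ℝ)) t l = ev l t := by
  induction l with
  | nil => rfl
  | cons c l ih => simp only [evG, ev, ih]

theorem bern1_spec {n3 : ℕ} {L3 : ℤ} {w3 : List ℤ} (hw : wOK n3 L3 w3 0)
    (hn : w3.length = n3 + 1) (l : List ℤ) (hl : l.length ≤ n3 + 1) (t3 : ℝ) :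
    g1 n3 t3 (bern1 w3 l) = L3 * ev l t3 := by
  unfold g1 bern1
  rw [bern_generic (fun c : ℤ => (c : ℝ)) (· + ·) (fun a b => by push_cast; rfl) (· * ·)
    (fun a b => by push_cast; rfl) 0 (by simp) n3 L3 t3 w3 l hw hn (by omega), evG_id]

theorem bern2_spec {n2 n3 : ℕ} {L2 L3 : ℤ} {w2 w3 : List ℤ} (hw2 : wOK n2 L2 w2 0)
    (hn2 : w2.length = n2 + 1) (hw3 : wOK n3 L3 w3 0)
    (hn3 : w3.length = n3 + 1) (M : List (List ℤ)) (hM : M.length ≤ n2 + 1)
    (hM' : ∀ l ∈ M, l.length ≤ n3 + 1) (t2 t3 : ℝ) :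
    g2 n2 n3 t2 t3 (bern2 w2 w3 M) = L2 * (L3 * ev2 M t2 t3) := by
  unfold g2 bern2
  rw [bern_generic (g1 n3 t3) add (g1_add n3 t3) smul (g1_smul n3 t3) [] (g1_nil n3 t3) n2 L2 t2
    w2 _ hw2 hn2 (by rw [List.length_map]; omega)]
  congr 1
  clear hM
  induction M with
  | nil => simp [evG, ev2]
  | cons l M ih =>
    simp only [List.map_cons, evG, ev2]
    rw [bern1_spec hw3 hn3 l (hM' l List.mem_cons_self),
      ih (fun m hm => hM' m (List.mem_cons_of_mem _ hm))]
    ring

theorem bern3_spec {n1 n2 n3 : ℕ} {L1 L2 L3 : ℤ} {w1 w2 w3 : List ℤ} (hw1 : wOK n1 L1 w1 0)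
    (hn1 : w1.length = n1 + 1) (hw2 : wOK n2 L2 w2 0)
    (hn2 : w2.length = n2 + 1) (hw3 : wOK n3 L3 w3 0)
    (hn3 : w3.length = n3 + 1) (F : P3) (hF : F.length ≤ n1 + 1)
    (hF' : ∀ M ∈ F, M.length ≤ n2 + 1 ∧ ∀ l ∈ M, l.length ≤ n3 + 1) (t1 t2 t3 : ℝ) :
    D n1 (fun i => g2 n2 n3 t2 t3 ((bern3 w1 w2 w3 F).getD i [])) t1 =
      L1 * (L2 * (L3 * ev3 F t1 t2 t3)) := by
  unfold bern3
  rw [bern_generic (g2 n2 n3 t2 t3) add2 (g2_add n2 n3 t2 t3) smul2 (g2_smul n2 n3 t2 t3) []
    (g2_nil n2 n3 t2 t3) n1 L1 t1 w1 _ hw1 hn1 (by rw [List.length_map]; omega)]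
  congr 1
  clear hF
  induction F with
  | nil => simp [evG, ev3]
  | cons M F ih =>
    simp only [List.map_cons, evG, ev3]
    rw [bern2_spec hw2 hn2 hw3 hn3 M (hF' M List.mem_cons_self).1 (hF' M List.mem_cons_self).2,
      ih (fun m hm => hF' m (List.mem_cons_of_mem _ hm))]
    ring

/-! ### packing -/

/-- entries `b + K` as natural numbers, exactly `n` entries -/
def cv1 (K : ℤ) : ℕ → List ℤ → List ℕ
  | 0, _ => []
  | n + 1, [] => (K).toNat :: cv1 K n []
  | n + 1, b :: l => (b + K).toNat :: cv1 K n l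

theorem cv1_getD (K : ℤ) (n : ℕ) (l : List ℤ) (k : ℕ) (hk : k < n) :
    (cv1 K n l).getD k 0 = (l.getD k 0 + K).toNat := by
  induction n generalizing l k with
  | zero => omega
  | succ n ih =>
    cases l with
    | nil =>
      cases k with
      | zero => simp [cv1]
      | succ k => simp only [cv1, List.getD_cons_succ]; rw [ih [] k (by omega)]; simp
    | cons b l =>
      cases k with
      | zero => simp [cv1]
      | succ k => simp only [cv1, List.getD_cons_succ]; rw [ih l k (by omega)]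

theorem cv1_length (K : ℤ) (n : ℕ) (l : List ℤ) : (cv1 K n l).length = n := by
  induction n generalizing l with
  | zero => cases l <;> rfl
  | succ n ih => cases l <;> simp [cv1, ih]

/-- packs of rows -/
def cv2 (B : ℕ) (K : ℤ) (n3 : ℕ) : ℕ → List (List ℤ) → List ℕ
  | 0, _ => []
  | n + 1, [] => mkL (B * 1) (cv1 K (n3 + 1) []) :: cv2 B K n3 n []
  | n + 1, b :: l => mkL (B * 1) (cv1 K (n3 + 1) b) :: cv2 B K n3 n l

theorem cv2_getD (B : ℕ) (K : ℤ) (n3 n : ℕ) (l : List (List ℤ)) (j : ℕ) (hj : j < n) :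
    (cv2 B K n3 n l).getD j 0 = mkL (B * 1) (cv1 K (n3 + 1) (l.getD j [])) := by
  induction n generalizing l j with
  | zero => omega
  | succ n ih =>
    cases l with
    | nil =>
      cases j with
      | zero => simp [cv2]
      | succ j => simp only [cv2, List.getD_cons_succ]; rw [ih [] j (by omega)]; simp
    | cons b l =>
      cases j with
      | zero => simp [cv2]
      | succ j => simp only [cv2, List.getD_cons_succ]; rw [ih l j (by omega)]

theorem cv2_length (B : ℕ) (K : ℤ) (n3 n : ℕ) (l : List (List ℤ)) :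
    (cv2 B K n3 n l).length = n := by
  induction n generalizing l with
  | zero => cases l <;> rfl
  | succ n ih => cases l <;> simp [cv2, ih]

def cv3 (B : ℕ) (K : ℤ) (n2 n3 : ℕ) : ℕ → P3 → List ℕ
  | 0, _ => []
  | n + 1, [] => mkL (B * (n3 + 1)) (cv2 B K n3 (n2 + 1) []) :: cv3 B K n2 n3 n []
  | n + 1, b :: l => mkL (B * (n3 + 1)) (cv2 B K n3 (n2 + 1) b) :: cv3 B K n2 n3 n l

theorem cv3_getD (B : ℕ) (K : ℤ) (n2 n3 n : ℕ) (l : P3) (i : ℕ) (hi : i < n) :
    (cv3 B K n2 n3 n l).getD i 0 = mkL (B * (n3 + 1)) (cv2 B K n3 (n2 + 1) (l.getD i [])) := by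
  induction n generalizing l i with
  | zero => omega
  | succ n ih =>
    cases l with
    | nil =>
      cases i with
      | zero => simp [cv3]
      | succ i => simp only [cv3, List.getD_cons_succ]; rw [ih [] i (by omega)]; simp
    | cons b l =>
      cases i with
      | zero => simp [cv3]
      | succ i => simp only [cv3, List.getD_cons_succ]; rw [ih l i (by omega)]

theorem cv3_length (B : ℕ) (K : ℤ) (n2 n3 n : ℕ) (l : P3) : (cv3 B K n2 n3 n l).length = n := by
  induction n generalizing l with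
  | zero => cases l <;> rfl
  | succ n ih => cases l <;> simp [cv3, ih]

/-- the packed tensor -/
def pack (q : Par) (F : P3) : ℕ :=
  mkL (q.B * ((q.n3 + 1) * (q.n2 + 1))) (cv3 q.B (2 ^ q.κ) q.n2 q.n3 (q.n1 + 1) F)

/-- all entries are bounded by `K` in absolute value -/
def bdd (K : ℤ) (F : P3) : Bool :=
  F.all fun M => M.all fun l => l.all fun b => decide (-K ≤ b) && decide (b ≤ K)

theorem bdd_spec {K : ℤ} (hK : 0 ≤ K) {F : P3} (h : bdd K F = true) (i j k : ℕ) :
    -K ≤ ((F.getD i []).getD j []).getD k 0 ∧ ((F.getD i []).getD j []).getD k 0 ≤ K := by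
  have g : ∀ (l : List ℤ), (∀ b ∈ l, -K ≤ b ∧ b ≤ K) → -K ≤ l.getD k 0 ∧ l.getD k 0 ≤ K := by
    intro l hl
    by_cases hk : k < l.length
    · rw [List.getD_eq_getElem _ _ hk]
      exact hl _ (List.getElem_mem hk)
    · rw [List.getD_eq_default _ _ (by omega)]
      exact ⟨by omega, hK⟩
  have g0 : -K ≤ ([] : List ℤ).getD k 0 ∧ ([] : List ℤ).getD k 0 ≤ K := g [] (by simp)
  unfold bdd at h
  rw [List.all_eq_true] at h
  by_cases hi : i < F.length
  · rw [List.getD_eq_getElem _ _ hi]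
    have h1 := h _ (List.getElem_mem hi)
    rw [List.all_eq_true] at h1
    by_cases hj : j < (F[i]).length
    · rw [List.getD_eq_getElem _ _ hj]
      have h2 := h1 _ (List.getElem_mem hj)
      rw [List.all_eq_true] at h2
      apply g
      intro b hb
      have := h2 b hb
      simpa [Bool.and_eq_true] using this
    · have e : (F[i]).getD j [] = [] := List.getD_eq_default _ _ (by omega)
      rw [e]
      exact g0
  · have e : F.getD i [] = [] := List.getD_eq_default _ _ (by omega)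
    rw [e, List.getD_nil]
    exact g0

theorem toNat_le_of {b K : ℤ} (h : b ≤ K) {κ : ℕ} (hK : K = 2 ^ κ) :
    (b + K).toNat ≤ 2 ^ (κ + 1) := by
  have : b + K ≤ 2 ^ (κ + 1) := by rw [pow_succ]; omega
  have h2 : ((b + K).toNat : ℤ) ≤ ((2 ^ (κ + 1) : ℕ) : ℤ) := by
    push_cast
    rw [Int.toNat_eq_max]
    have : (0:ℤ) ≤ 2 ^ (κ + 1) := by positivity
    omega
  exact_mod_cast h2

theorem slot_pack (q : Par) (hq : q.OK) (F : P3) (hF : bdd (2 ^ q.κ) F = true) (p : ℕ) :
    slot q.B (pack q F) p ≤ 2 ^ (q.κ + 1) ∧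
    ∀ i j k, i ≤ q.n1 → j ≤ q.n2 → k ≤ q.n3 → slot q.B (pack q F) (pos q.n2 q.n3 i j k) =
      (((F.getD i []).getD j []).getD k 0 + 2 ^ q.κ).toNat := by
  have hB : 0 < q.B := by have := hq.h1; omega
  have hK0 : (0 : ℤ) ≤ 2 ^ q.κ := by positivity
  have hb : ∀ i j k, (((F.getD i []).getD j []).getD k 0 + 2 ^ q.κ).toNat ≤ 2 ^ (q.κ + 1) :=
    fun i j k => toNat_le_of (bdd_spec hK0 hF i j k).2 rfl
  have hlt : 2 ^ (q.κ + 1) < 2 ^ q.B :=
    Nat.pow_lt_pow_right (by norm_num) (by have := hq.h1; omega)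
  -- entries of the lists
  have m3 : ∀ i j, ∀ a ∈ cv1 (2 ^ q.κ) (q.n3 + 1) ((F.getD i []).getD j []), a < 2 ^ (q.B * 1) := by
    intro i j a ha
    obtain ⟨k, hk, rfl⟩ := List.getElem_of_mem ha
    have hk' := hk
    rw [cv1_length] at hk'
    have := cv1_getD (2 ^ q.κ) (q.n3 + 1) ((F.getD i []).getD j []) k hk'
    rw [List.getD_eq_getElem _ _ hk] at this
    rw [this, mul_one]
    exact (hb i j k).trans_lt hlt
  have m3' : ∀ i j, mkL (q.B * 1) (cv1 (2 ^ q.κ) (q.n3 + 1) ((F.getD i []).getD j [])) <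
      2 ^ (q.B * (q.n3 + 1)) := by
    intro i j
    have := mkL_lt (q.B * 1) _ (m3 i j)
    rw [cv1_length] at this
    refine this.trans_eq ?_
    rw [mul_one]
  have m2 : ∀ i, ∀ a ∈ cv2 q.B (2 ^ q.κ) q.n3 (q.n2 + 1) (F.getD i []),
      a < 2 ^ (q.B * (q.n3 + 1)) := by
    intro i a ha
    obtain ⟨j, hj, rfl⟩ := List.getElem_of_mem ha
    have hj' := hj
    rw [cv2_length] at hj'
    have := cv2_getD q.B (2 ^ q.κ) q.n3 (q.n2 + 1) (F.getD i []) j hj'
    rw [List.getD_eq_getElem _ _ hj] at this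
    rw [this]
    exact m3' i j
  have m2' : ∀ i, mkL (q.B * (q.n3 + 1)) (cv2 q.B (2 ^ q.κ) q.n3 (q.n2 + 1) (F.getD i [])) <
      2 ^ (q.B * ((q.n3 + 1) * (q.n2 + 1))) := by
    intro i
    have := mkL_lt (q.B * (q.n3 + 1)) _ (m2 i)
    rwa [cv2_length, mul_assoc] at this
  have m1 : ∀ a ∈ cv3 q.B (2 ^ q.κ) q.n2 q.n3 (q.n1 + 1) F,
      a < 2 ^ (q.B * ((q.n3 + 1) * (q.n2 + 1))) := by
    intro a ha
    obtain ⟨i, hi, rfl⟩ := List.getElem_of_mem ha
    have hi' := hi
    rw [cv3_length] at hi'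
    have := cv3_getD q.B (2 ^ q.κ) q.n2 q.n3 (q.n1 + 1) F i hi'
    rw [List.getD_eq_getElem _ _ hi] at this
    rw [this]
    exact m2' i
  have hpos : 0 < (q.n3 + 1) * (q.n2 + 1) := by positivity
  have key : ∀ p, slot q.B (pack q F) p =
      if p / ((q.n3 + 1) * (q.n2 + 1)) < q.n1 + 1 then
        (((F.getD (p / ((q.n3 + 1) * (q.n2 + 1))) []).getD
          (p % ((q.n3 + 1) * (q.n2 + 1)) / (q.n3 + 1)) []).getD
          (p % ((q.n3 + 1) * (q.n2 + 1)) % (q.n3 + 1)) 0 + 2 ^ q.κ).toNat else 0 := by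
    intro p
    unfold pack
    rw [slot_mkL q.B _ hB hpos _ m1]
    split_ifs with h1
    · rw [cv3_getD _ _ _ _ _ _ _ h1, slot_mkL q.B _ hB (by positivity) _ (m2 _)]
      have h2 : p % ((q.n3 + 1) * (q.n2 + 1)) / (q.n3 + 1) < q.n2 + 1 := by
        rw [Nat.div_lt_iff_lt_mul (by positivity), mul_comm (q.n2 + 1)]
        exact Nat.mod_lt _ hpos
      rw [cv2_getD _ _ _ _ _ _ h2, slot_mkL q.B _ hB (by norm_num) _ (m3 _ _)]
      have h3 : p % ((q.n3 + 1) * (q.n2 + 1)) % (q.n3 + 1) < q.n3 + 1 := Nat.mod_lt _ (by positivity)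
      rw [Nat.div_one, Nat.mod_one, cv1_getD _ _ _ _ h3, slot_zero_right, Nat.mod_eq_of_lt]
      exact (hb _ _ _).trans_lt hlt
    · rw [List.getD_eq_default _ _ (by rw [cv3_length]; omega), slot_zero]
  constructor
  · rw [key]
    split_ifs
    · exact hb _ _ _
    · exact Nat.zero_le _
  · intro i j k hi hj hk
    obtain ⟨h1, h2⟩ := pos_div1 (i := i) hj hk
    rw [key, h1, h2, if_pos (by omega)]
    have h3 : (j * (q.n3 + 1) + k) / (q.n3 + 1) = j := by
      rw [mul_comm, Nat.mul_add_div (by positivity), Nat.div_eq_of_lt (by omega), add_zero]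
    have h4 : (j * (q.n3 + 1) + k) % (q.n3 + 1) = k := by
      rw [mul_comm, Nat.mul_add_mod, Nat.mod_eq_of_lt (by omega)]
    rw [h3, h4]

theorem val_pack (q : Par) (hq : q.OK) (F : P3) (hF : bdd (2 ^ q.κ) F = true) (t1 t2 t3 : ℝ) :
    val q (pack q F) t1 t2 t3 =
      D q.n1 (fun i => g2 q.n2 q.n3 t2 t3 (F.getD i [])) t1 + 2 ^ q.κ := by
  have hK0 : (0 : ℤ) ≤ 2 ^ q.κ := by positivity
  unfold val
  have h1 : E3 q.n1 q.n2 q.n3 (fun i j k => (slot q.B (pack q F) (pos q.n2 q.n3 i j k) : ℝ))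
      t1 t2 t3 = E3 q.n1 q.n2 q.n3 (fun i j k =>
        ((((F.getD i []).getD j []).getD k 0 : ℤ) : ℝ) + 2 ^ q.κ) t1 t2 t3 := by
    unfold E3
    refine D_congr _ (fun i hi => ?_) _
    refine D_congr _ (fun j hj => ?_) _
    refine D_congr _ (fun k hk => ?_) _
    simp only
    rw [(slot_pack q hq F hF 0).2 i j k hi hj hk]
    have h2 := (bdd_spec hK0 hF i j k).1
    have h3 : (((((F.getD i []).getD j []).getD k 0 + 2 ^ q.κ).toNat : ℕ) : ℤ) =
        ((F.getD i []).getD j []).getD k 0 + 2 ^ q.κ := Int.toNat_of_nonneg (by omega)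
    have h4 : ((((((F.getD i []).getD j []).getD k 0 + 2 ^ q.κ).toNat : ℕ) : ℤ) : ℝ) =
        ((((F.getD i []).getD j []).getD k 0 + 2 ^ q.κ : ℤ) : ℝ) := by rw [h3]
    rw [Int.cast_natCast] at h4
    rw [h4]
    push_cast
    rfl
  rw [h1]
  unfold E3 g2 g1
  simp only [D_add, D_const]

/-! ### the test -/

/-- length test -/
def lenOK (q : Par) (F : P3) : Bool :=
  Nat.ble F.length (q.n1 + 1) && F.all fun M => Nat.ble M.length (q.n2 + 1) &&
    M.all fun l => Nat.ble l.length (q.n3 + 1)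

/-- data of the weights -/
structure Wts (q : Par) where
  w1 : List ℤ
  w2 : List ℤ
  w3 : List ℤ
  L1 : ℤ
  L2 : ℤ
  L3 : ℤ
  h1 : wOK q.n1 L1 w1 0
  h2 : wOK q.n2 L2 w2 0
  h3 : wOK q.n3 L3 w3 0
  l1 : w1.length = q.n1 + 1
  l2 : w2.length = q.n2 + 1
  l3 : w3.length = q.n3 + 1
  p1 : 0 < L1
  p2 : 0 < L2
  p3 : 0 < L3

/-- the Bernstein tensor -/
def tens {q : Par} (W : Wts q) (F : P3) : P3 := bern3 W.w1 W.w2 W.w3 F

def chkP (q : Par) (skip : ℕ → ℕ → ℕ → ℕ → ℕ → ℕ → Bool) (f T : ℕ) : Bool :=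
  chk q (cst' q.B q.n1 q.n2 q.n3 (2 ^ q.κ)) (cst' q.B q.n1 q.n2 q.n3 (2 ^ (q.B - q.n1) - 1))
      (cst' q.B q.n1 q.n2 q.n3 (2 ^ (q.B - q.n2) - 1))
      (cst' q.B q.n1 q.n2 q.n3 (2 ^ (q.B - q.n3) - 1)) skip f 0 0 0 0 0 0 0 T

/-- SOUNDNESS -/
theorem nonneg_of_tests {q : Par} (hq : q.OK) (W : Wts q)
    (skip : ℕ → ℕ → ℕ → ℕ → ℕ → ℕ → Bool) (reg : ℝ → ℝ → ℝ → Prop) (hskip : SkipOK skip reg)
    (F : P3) (f T : ℕ) (hlen : lenOK q F = true)
    (hb : bdd (2 ^ q.κ) (tens W F) = true)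
    (hT : pack q (tens W F) = T)
    (hc : chkP q skip f T = true) (x y z : ℝ)
    (hx : 0 ≤ x) (hx' : x ≤ 1) (hy : 0 ≤ y) (hy' : y ≤ 1) (hz : 0 ≤ z) (hz' : z ≤ 1)
    (hr : reg x y z) : 0 ≤ ev3 F x y z := by
  have h1 := chk_sound q hq skip reg hskip f 0 0 0 0 0 0 0 T hc
    (fun p => by rw [← hT]; exact (slot_pack q hq _ hb p).1)
    (by norm_num) (by norm_num) (by norm_num) x y z hx hx' hy hy' hz hz' (by simpa using hr)
  rw [← hT, val_pack q hq _ hb] at h1
  have h2 : 0 ≤ D q.n1 (fun i => g2 q.n2 q.n3 y z ((tens W F).getD i [])) x := by linarith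
  unfold lenOK at hlen
  rw [Bool.and_eq_true, List.all_eq_true] at hlen
  unfold tens at h2
  rw [bern3_spec W.h1 W.l1 W.h2 W.l2 W.h3 W.l3 F (Nat.le_of_ble_eq_true hlen.1) (fun M hM => by
    have := hlen.2 M hM
    rw [Bool.and_eq_true, List.all_eq_true] at this
    exact ⟨Nat.le_of_ble_eq_true this.1, fun l hl => Nat.le_of_ble_eq_true (this.2 l hl)⟩)] at h2
  have p1 : (0:ℝ) < W.L1 := by exact_mod_cast W.p1
  have p2 : (0:ℝ) < W.L2 := by exact_mod_cast W.p2
  have p3 : (0:ℝ) < W.L3 := by exact_mod_cast W.p3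
  have h3 := nonneg_of_mul_nonneg_right h2 p1
  have h4 := nonneg_of_mul_nonneg_right h3 p2
  exact nonneg_of_mul_nonneg_right h4 p3

end Pool.Agent.Helper2.PB
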