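import Pool.Agent.Helper2.PB.Poly3
import Pool.Agent.Helper2.OD.IfaceR
import Pool.Agent.Helper2.OD.Reg

/-!
# Scalar certificates `CertR` from integer data
-/

namespace Pool.Agent.Helper2.PB

open Pool.Agent.Helper2.OC
open Pool.Agent.Helper2.OC.Bern (ev ev2 add add2 smul smul2 mul rmul mul2 ev_add ev2_add ev_smul
  ev2_smul ev_mul ev2_rmul ev2_mul)

/-- the potential: `S * P(x, r) = x A(x) + r B(x) + r^2 H(2 r x, x)` -/
noncomputable def PF (A B : List ℤ) (H : List (List ℤ)) (S : ℤ) (x r : ℝ) : ℝ :=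
  (x * ev A x + r * ev B x + r ^ 2 * ev2 H (2 * (r * x)) x) / S

/-- variables -/
def vz : P3 := [[], [[1]]]
def vt : P3 := [[[], [1]]]
def vr : P3 := [[[0, 1]]]
def vc (c : ℤ) : P3 := [[[c]]]

theorem ev3_vz (z t r : ℝ) : ev3 vz z t r = z := by simp [vz, ev3, ev2, ev]
theorem ev3_vt (z t r : ℝ) : ev3 vt z t r = t := by simp [vt, ev3, ev2, ev]
theorem ev3_vr (z t r : ℝ) : ev3 vr z t r = r := by simp [vr, ev3, ev2, ev]
theorem ev3_vc (c : ℤ) (z t r : ℝ) : ev3 (vc c) z t r = c := by simp [vc, ev3, ev2, ev]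

/-- `2 - z` -/
def pm : P3 := add3 (vc 2) (smul3 (-1) vz)
/-- `x = ζ z` -/
def px : P3 := mul3 vt vz
/-- `r = ρ x` -/
def pr : P3 := mul3 vr px
/-- `x' = z (2 - z)` -/
def pX : P3 := mul3 vz pm
/-- `2 η = 4 ρ + 1 - 2 r - r ^ 2` -/
def pe : P3 := add3 (add3 (add3 (smul3 4 vr) (vc 1)) (smul3 (-2) pr)) (smul3 (-1) (mul3 pr pr))
/-- `ζ ^ 2` -/
def pt2 : P3 := mul3 vt vt
/-- `2 y' = z ^ 2 ζ ^ 2 (2 η)` -/
def pu : P3 := mul3 (mul3 (mul3 vz vz) pt2) pe
/-- `2 y` -/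
def pv : P3 := smul3 2 (mul3 vr (mul3 px px))

/-- `8 S (2 - z) ^ 2 (P(x', r') - P(x, r) - pay) / z`, where `pz = 8 pay / z` -/
def FT (A B : List ℤ) (H : List (List ℤ)) (S : ℤ) (pz : P3) : P3 :=
  add3 (add3 (add3 (smul3 8 (mul3 (mul3 pm (mul3 pm pm)) (cmp1 pX A)))
    (smul3 4 (mul3 (mul3 pm (mul3 pt2 pe)) (cmp1 pX B))))
    (smul3 2 (mul3 (mul3 vz (mul3 (mul3 pt2 pt2) (mul3 pe pe))) (cmp2 pu pX H))))
    (smul3 (-1) (mul3 (mul3 pm pm) (add3 (add3 (add3 (smul3 8 (mul3 vt (cmp1 px A)))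
      (smul3 8 (mul3 (mul3 vr vt) (cmp1 px B))))
      (smul3 8 (mul3 (mul3 vz (mul3 (mul3 vr vr) pt2)) (cmp2 pv px H)))) (smul3 S pz))))

theorem ev3_FT (A B : List ℤ) (H : List (List ℤ)) (S : ℤ) (pz : P3) (z t r : ℝ) :
    ev3 (FT A B H S pz) z t r =
      8 * (2 - z) ^ 3 * ev A (z * (2 - z)) +
      4 * ((2 - z) * (t ^ 2 * (4 * r + 1 - 2 * (r * (t * z)) - (r * (t * z)) ^ 2))) *
        ev B (z * (2 - z)) +
      2 * (z * (t ^ 4 * (4 * r + 1 - 2 * (r * (t * z)) - (r * (t * z)) ^ 2) ^ 2)) *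
        ev2 H (z ^ 2 * t ^ 2 * (4 * r + 1 - 2 * (r * (t * z)) - (r * (t * z)) ^ 2))
          (z * (2 - z)) -
      (2 - z) ^ 2 * (8 * (t * ev A (t * z)) + 8 * (r * t * ev B (t * z)) +
        8 * (z * (r ^ 2 * t ^ 2) * ev2 H (2 * (r * (t * z) ^ 2)) (t * z)) +
        S * ev3 pz z t r) := by
  have h1 : z * (2 + -1 * z) = z * (2 - z) := by ring
  have h2 : z * z * (t * t) * (4 * r + 1 + -2 * (r * (t * z)) + -1 * (r * (t * z) * (r * (t * z)))) =
    z ^ 2 * t ^ 2 * (4 * r + 1 - 2 * (r * (t * z)) - (r * (t * z)) ^ 2) := by ring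
  have h3 : 2 * (r * (t * z * (t * z))) = 2 * (r * (t * z) ^ 2) := by ring
  simp only [FT, pm, px, pr, pX, pe, pt2, pu, pv, ev3_add, ev3_smul, ev3_mul, ev3_cmp1, ev3_cmp2,
    ev3_vz, ev3_vt, ev3_vr, ev3_vc, Int.cast_ofNat, Int.cast_neg, Int.cast_one, h1, h2, h3]
  ring

/-- the chart -/
theorem dyn_of_FT {A B : List ℤ} {H : List (List ℤ)} {S : ℤ} {pz : P3} {pay : ℝ → ℝ → ℝ → ℝ}
    (hS : 0 < S)
    (hpz : ∀ z t r : ℝ, ev3 pz z t r * z =
      8 * pay (t * z) (t * z * (r * (t * z))) (z * (2 - z) - (2 * (t * z) - (t * z) ^ 2)))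
    (hpos : ∀ z t r : ℝ, 0 ≤ z → z ≤ 1 → 0 ≤ t → t ≤ 1 → 0 ≤ r → r ≤ 1 →
      r * (4 - 3 * (t * z)) ≤ 1 → 0 ≤ ev3 (FT A B H S pz) z t r)
    (x r x' : ℝ) (hx : 0 ≤ x) (hx1 : x ≤ 1) (hr : 0 ≤ r) (hr1 : r * (4 - 3 * x) ≤ x)
    (hx' : 2 * x - x ^ 2 ≤ x') (hx1' : x' ≤ 1) :
    PF A B H S x r + pay x (x * r) (x' - (2 * x - x ^ 2)) ≤ PF A B H S x' (yn x (x * r) / x') := by
  set z : ℝ := 1 - Real.sqrt (1 - x') with hz
  have hs0 : 0 ≤ Real.sqrt (1 - x') := Real.sqrt_nonneg _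
  have hs2 : Real.sqrt (1 - x') ^ 2 = 1 - x' := Real.sq_sqrt (by linarith)
  have hX : z * (2 - z) = x' := by
    rw [hz]
    have : (1 - Real.sqrt (1 - x')) * (2 - (1 - Real.sqrt (1 - x'))) =
      1 - Real.sqrt (1 - x') ^ 2 := by ring
    rw [this, hs2]; ring
  have hsx : Real.sqrt (1 - x') ≤ 1 - x := by
    rw [Real.sqrt_le_left (by linarith)]
    nlinarith
  have hxz : x ≤ z := by rw [hz]; linarith
  have hz0 : 0 ≤ z := hx.trans hxz
  have hz1 : z ≤ 1 := by rw [hz]; linarith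
  rcases hz0.eq_or_lt with hz00 | hzpos
  · -- z = 0
    have hx0 : x = 0 := by linarith
    have hx'0 : x' = 0 := by rw [← hX, ← hz00]; ring
    have hr0 : r = 0 := by rw [hx0] at hr1; linarith
    have h1 := hpz 0 0 0
    rw [hx0, hx'0, hr0]
    simp only [mul_zero] at h1
    have h2 : pay 0 (0 * 0) (0 - (2 * 0 - 0 ^ 2)) = 0 := by
      have e : (0:ℝ) * (2 - 0) - (0 - 0 ^ 2) = 0 - (2 * 0 - 0 ^ 2) := by ring
      rw [e] at h1
      rw [mul_zero]
      linarith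
    rw [h2]
    unfold PF yn
    simp
  · obtain ⟨t, ht0, ht1, htz⟩ : ∃ t : ℝ, 0 ≤ t ∧ t ≤ 1 ∧ t * z = x := by
      refine ⟨x / z, by positivity, ?_, ?_⟩
      · rw [div_le_one hzpos]; exact hxz
      · field_simp
    obtain ⟨ρ, hρ0, hρ1, hρ2, hρx⟩ : ∃ ρ : ℝ, 0 ≤ ρ ∧ ρ ≤ 1 ∧ ρ * (4 - 3 * x) ≤ 1 ∧ ρ * x = r := by
      rcases hx.eq_or_lt with hx0 | hxpos
      · refine ⟨0, le_rfl, zero_le_one, by norm_num, ?_⟩
        rw [← hx0] at hr1
        linarith
      · have h4 : r / x * (4 - 3 * x) ≤ 1 := by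
          rw [div_mul_eq_mul_div, div_le_one hxpos]; exact hr1
        refine ⟨r / x, by positivity, ?_, h4, by field_simp⟩
        have : 0 ≤ r / x := by positivity
        nlinarith
    have h5 := hpos z t ρ hz0 hz1 ht0 ht1 hρ0 hρ1 (by rw [htz]; exact hρ2)
    have h6 := hpz z t ρ
    rw [htz, hρx, hX] at h6
    rw [ev3_FT, htz, hρx, hX] at h5
    have hm : 0 < 2 - z := by linarith
    have hx'pos : 0 < x' := by rw [← hX]; positivity
    -- the new point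
    set e : ℝ := 4 * ρ + 1 - 2 * r - r ^ 2 with he
    have hyn : yn x (x * r) = z ^ 2 * t ^ 2 * e / 2 := by
      have e1 : z ^ 2 * t ^ 2 * e / 2 = (t * z) ^ 2 * e / 2 := by ring
      rw [e1, htz, he]
      unfold yn
      have : x ^ 2 * (4 * ρ + 1 - 2 * r - r ^ 2) / 2 =
        2 * (x * (ρ * x)) + x ^ 2 * (1 - 2 * r - r ^ 2) / 2 := by ring
      rw [this, hρx]
      ring
    have hr' : yn x (x * r) / x' = z * t ^ 2 * e / (2 * (2 - z)) := by
      rw [hyn, ← hX]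
      field_simp
    have hrx : 2 * (yn x (x * r) / x' * x') = z ^ 2 * t ^ 2 * e := by
      rw [div_mul_cancel₀ _ hx'pos.ne', hyn]; ring
    have hx2 : 2 * (r * x) = 2 * (ρ * x ^ 2) := by rw [← hρx]; ring
    have hS' : (0:ℝ) < S := by exact_mod_cast hS
    -- main identity
    have key : z * (8 * (2 - z) ^ 3 * ev A x' + 4 * ((2 - z) * (t ^ 2 * e)) * ev B x' +
        2 * (z * (t ^ 4 * e ^ 2)) * ev2 H (z ^ 2 * t ^ 2 * e) x' -
        (2 - z) ^ 2 * (8 * (t * ev A x) + 8 * (ρ * t * ev B x) +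
        8 * (z * (ρ ^ 2 * t ^ 2) * ev2 H (2 * (ρ * x ^ 2)) x) + S * ev3 pz z t ρ)) =
        8 * S * (2 - z) ^ 2 * (PF A B H S x' (yn x (x * r) / x') - (PF A B H S x r +
          pay x (x * r) (x' - (2 * x - x ^ 2)))) := by
      unfold PF
      rw [hrx, hx2, hr']
      have a1 : x' * ev A x' = z * (2 - z) * ev A x' := by rw [hX]
      have a2 : x * ev A x = t * z * ev A x := by rw [htz]
      have a3 : r = ρ * (t * z) := by rw [htz, hρx]
      rw [a1, a2]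
      have a4 : r * ev B x = ρ * (t * z) * ev B x := by rw [← a3]
      have a5 : r ^ 2 * ev2 H (2 * (ρ * x ^ 2)) x = (ρ * (t * z)) ^ 2 * ev2 H (2 * (ρ * x ^ 2)) x := by
        rw [← a3]
      rw [a4, a5]
      have a6 : (S:ℝ) * ev3 pz z t ρ * z = 8 * S * pay x (x * r) (x' - (2 * x - x ^ 2)) := by
        rw [mul_assoc, h6]; ring
      set EA' := ev A x'
      set EB' := ev B x'
      set EH' := ev2 H (z ^ 2 * t ^ 2 * e) x'
      set EA := ev A x
      set EB := ev B x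
      set EH := ev2 H (2 * (ρ * x ^ 2)) x
      set PZ := ev3 pz z t ρ
      set PY := pay x (x * r) (x' - (2 * x - x ^ 2))
      clear_value EA' EB' EH' EA EB EH PZ PY e
      have a7 : z * ((2 - z) ^ 2 * (S * PZ)) = (2 - z) ^ 2 * (8 * S * PY) := by rw [← a6]; ring
      have a8 : 8 * (S:ℝ) * (2 - z) ^ 2 * ((z * (2 - z) * EA' + z * t ^ 2 * e / (2 * (2 - z)) * EB' +
          (z * t ^ 2 * e / (2 * (2 - z))) ^ 2 * EH') / S -
          ((t * z * EA + ρ * (t * z) * EB + (ρ * (t * z)) ^ 2 * EH) / S + PY)) =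
          8 * (2 - z) ^ 2 * (z * (2 - z) * EA') + 4 * (2 - z) * (z * t ^ 2 * e) * EB' +
          2 * (z * t ^ 2 * e) ^ 2 * EH' - 8 * (2 - z) ^ 2 * (t * z * EA + ρ * (t * z) * EB +
          (ρ * (t * z)) ^ 2 * EH) - (2 - z) ^ 2 * (8 * S * PY) := by
        field_simp
        ring
      rw [a8, ← a7]
      ring
    have h7 : 0 ≤ 8 * S * (2 - z) ^ 2 * (PF A B H S x' (yn x (x * r) / x') - (PF A B H S x r +
          pay x (x * r) (x' - (2 * x - x ^ 2)))) := by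
      rw [← key]
      exact mul_nonneg hz0 h5
    have h8 : 0 < 8 * (S:ℝ) * (2 - z) ^ 2 := by positivity
    have h9 := nonneg_of_mul_nonneg_right h7 h8
    linarith

/-! ### regularity -/

theorem Reg_ev (A : List ℤ) : Reg (fun x _ => ev A x) := by
  induction A with
  | nil => exact Reg.const 0
  | cons c l ih => exact (Reg.const (c : ℝ)).add (Reg.fst.mul ih)

theorem Reg_ev2 (H : List (List ℤ)) : Reg (fun x r => ev2 H (2 * (r * x)) x) := by
  induction H with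
  | nil => exact Reg.const 0
  | cons c l ih => exact (Reg_ev c).add (((Reg.const 2).mul (Reg.snd.mul Reg.fst)).mul ih)

theorem Reg_PF (A B : List ℤ) (H : List (List ℤ)) (S : ℤ) : Reg (PF A B H S) := by
  have h := ((Reg.fst.mul (Reg_ev A)).add (Reg.snd.mul (Reg_ev B))).add
    ((Reg.snd.pow 2).mul (Reg_ev2 H))
  refine (h.smul (1 / (S : ℝ))).congr (fun x r => ?_)
  unfold PF
  ring

theorem Reg.lipsq {G : ℝ → ℝ → ℝ} (hG : Reg G) : ∃ L : ℝ, ∀ x y x' y' : ℝ, 0 ≤ x → x ≤ 1 → 0 ≤ y →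
    y ≤ 1 → 0 ≤ x' → x' ≤ 1 → 0 ≤ y' → y' ≤ 1 →
    |G x y - G x' y'| ≤ L * (|x - x'| + |y - y'|) := by
  obtain ⟨Gx, Gy, L, hL, h, _⟩ := hG
  refine ⟨2 * L, ?_⟩
  intro x y x' y' a1 a2 a3 a4 a5 a6 a7 a8
  obtain ⟨_, h2, h3, h4⟩ := h x y x' y' a1 a2 a3 a4 a5 a6 a7 a8
  have k1 : |x - x'| ≤ 1 := by rw [abs_le]; constructor <;> linarith
  have k2 : |y - y'| ≤ 1 := by rw [abs_le]; constructor <;> linarith
  have k3 : (x - x') ^ 2 ≤ |x - x'| := by rw [← sq_abs]; nlinarith [abs_nonneg (x - x')]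
  have k4 : (y - y') ^ 2 ≤ |y - y'| := by rw [← sq_abs]; nlinarith [abs_nonneg (y - y')]
  have k5 : |Gx x' y' * (x - x')| ≤ L * |x - x'| := by
    rw [abs_mul]; exact mul_le_mul_of_nonneg_right h2 (abs_nonneg _)
  have k6 : |Gy x' y' * (y - y')| ≤ L * |y - y'| := by
    rw [abs_mul]; exact mul_le_mul_of_nonneg_right h3 (abs_nonneg _)
  have e : G x y - G x' y' = (G x y - G x' y' - Gx x' y' * (x - x') - Gy x' y' * (y - y')) +
    (Gx x' y' * (x - x') + Gy x' y' * (y - y')) := by ring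
  rw [e]
  refine (abs_add_le _ _).trans ?_
  have t := abs_add_le (Gx x' y' * (x - x')) (Gy x' y' * (y - y'))
  have : L * ((x - x') ^ 2 + (y - y') ^ 2) ≤ L * (|x - x'| + |y - y'|) :=
    mul_le_mul_of_nonneg_left (by linarith) hL
  linarith

/-! ### the two-variable tests (monotonicity in `r`, range), chart `r = s x / (4 - 3 x)` -/

/-- `S P` as a polynomial in `r` with coefficients polynomials in `x` -/
def rows (A B : List ℤ) (H : List (List ℤ)) : List (List ℤ) :=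
  add2 [0 :: A, B] (Bern.comp2 [[], [0, 2]] [[0, 1]] H |> fun M => [] :: [] :: M)

theorem ev2_rows (A B : List ℤ) (H : List (List ℤ)) (r x : ℝ) :
    ev2 (rows A B H) r x = x * ev A x + r * ev B x + r ^ 2 * ev2 H (2 * (r * x)) x := by
  unfold rows
  rw [ev2_add]
  simp only [ev2, ev, Bern.ev2_comp2]
  push_cast
  have e1 : (0 + (r * ((0:ℝ) + x * (2 + x * 0) + r * 0))) = 2 * (r * x) := by ring
  have e2 : (0 + x * ((1:ℝ) + x * 0) + r * 0) = x := by ring
  rw [e1, e2]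
  ring

/-- derivative in the outer variable -/
def der : List (List ℤ) → List (List ℤ)
  | [] => []
  | _ :: L => add2 L ([] :: der L)

theorem hasDerivAt_ev2 (L : List (List ℤ)) (x r : ℝ) :
    HasDerivAt (fun r => ev2 L r x) (ev2 (der L) r x) r := by
  induction L with
  | nil => simp only [ev2, der]; exact hasDerivAt_const r 0
  | cons a L ih =>
    simp only [ev2, der, ev2_add, ev]
    have h := ((hasDerivAt_id r).mul ih).const_add (ev a x)
    refine h.congr_deriv ?_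
    simp only [id_eq]
    ring

/-- `(4 - 3 x) ^ n * L(s x / (4 - 3 x), x)` as a polynomial in `x` (outer) and `s` (inner) -/
def hom : ℕ → List (List ℤ) → List (List ℤ)
  | _, [] => []
  | 0, l :: _ => Bern.comp1 [[], [1]] l
  | n + 1, l :: L => add2 (mul2 (Bern.comp1 [[], [1]] l) (pw (n + 1)))
      (mul2 [[], [0, 1]] (hom n L))
where
  /-- powers of `4 - 3 x` -/
  pw : ℕ → List (List ℤ)
    | 0 => [[1]]
    | n + 1 => mul2 [[4], [-3]] (pw n)

theorem ev2_pw (n : ℕ) (x s : ℝ) : ev2 (hom.pw n) x s = (4 - 3 * x) ^ n := by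
  induction n with
  | zero => simp [hom.pw, ev2, ev]
  | succ n ih =>
    simp only [hom.pw, ev2_mul, ih, ev2, ev]
    push_cast
    ring

theorem ev2_hom (n : ℕ) (L : List (List ℤ)) (hL : L.length ≤ n + 1) (x s : ℝ)
    (hx : 0 < 4 - 3 * x) :
    ev2 (hom n L) x s = (4 - 3 * x) ^ n * ev2 L (s * x / (4 - 3 * x)) x := by
  induction L generalizing n with
  | nil => cases n <;> simp [hom, ev2]
  | cons l L ih =>
    have e1 : ev2 [[], [1]] x s = x := by simp [ev2, ev]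
    cases n with
    | zero =>
      have : L = [] := by
        rw [List.length_cons] at hL
        exact List.length_eq_zero_iff.mp (by omega)
      subst this
      rw [show hom 0 [l] = Bern.comp1 [[], [1]] l from rfl, Bern.ev2_comp1, e1]
      simp [ev2]
    | succ n =>
      rw [show hom (n + 1) (l :: L) = add2 (mul2 (Bern.comp1 [[], [1]] l) (hom.pw (n + 1)))
        (mul2 [[], [0, 1]] (hom n L)) from rfl]
      rw [ev2_add, ev2_mul, ev2_mul, Bern.ev2_comp1, e1, ev2_pw,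
        ih n (by rw [List.length_cons] at hL; omega)]
      have e2 : ev2 [[], [0, 1]] x s = x * s := by simp [ev2, ev]
      rw [e2]
      simp only [ev2]
      set W := ev2 L (s * x / (4 - 3 * x)) x
      clear_value W
      have h4 : (4 - 3 * x) ≠ 0 := hx.ne'
      have e3 : (4 - 3 * x) ^ (n + 1) * (s * x / (4 - 3 * x) * W) =
        (4 - 3 * x) ^ n * (s * x * W) := by
        rw [pow_succ]
        field_simp
      rw [mul_add, e3]
      ring

theorem region_chart {x r : ℝ} (hx : 0 ≤ x) (hx1 : x ≤ 1) (hr : 0 ≤ r) (h : r * (4 - 3 * x) ≤ x) :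
    ∃ s : ℝ, 0 ≤ s ∧ s ≤ 1 ∧ r = s * x / (4 - 3 * x) := by
  have h4 : 0 < 4 - 3 * x := by linarith
  rcases hx.eq_or_lt with rfl | hx0
  · refine ⟨0, le_rfl, zero_le_one, ?_⟩
    have : r = 0 := by linarith
    rw [this]; simp
  · refine ⟨r * (4 - 3 * x) / x, by positivity, by rw [div_le_one hx0]; exact h, ?_⟩
    field_simp

/-- CERTIFICATE -/
theorem certR_of {A B : List ℤ} {H : List (List ℤ)} {S : ℤ} {pz : P3} {pay : ℝ → ℝ → ℝ → ℝ}
    {V : ℝ} (hS : 0 < S)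
    (hpz : ∀ z t r : ℝ, ev3 pz z t r * z =
      8 * pay (t * z) (t * z * (r * (t * z))) (z * (2 - z) - (2 * (t * z) - (t * z) ^ 2)))
    (hpos : ∀ z t r : ℝ, 0 ≤ z → z ≤ 1 → 0 ≤ t → t ≤ 1 → 0 ≤ r → r ≤ 1 →
      r * (4 - 3 * (t * z)) ≤ 1 → 0 ≤ ev3 (FT A B H S pz) z t r)
    (n : ℕ) (hn : (rows A B H).length ≤ n + 1) (hn' : (der (rows A B H)).length ≤ n + 1)
    (hmono : ∀ x s : ℝ, 0 ≤ x → x ≤ 1 → 0 ≤ s → s ≤ 1 → 0 ≤ ev2 (hom n (der (rows A B H))) x s)
    (hnon : ∀ x s : ℝ, 0 ≤ x → x ≤ 1 → 0 ≤ s → s ≤ 1 → 0 ≤ ev2 (hom n (rows A B H)) x s)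
    (VI : ℤ) (hV : (VI : ℝ) ≤ S * V)
    (hle : ∀ x s : ℝ, 0 ≤ x → x ≤ 1 → 0 ≤ s → s ≤ 1 →
      0 ≤ ev2 (hom n (add2 [[VI]] (smul2 (-1) (rows A B H)))) x s)
    (hn2 : (add2 [[VI]] (smul2 (-1) (rows A B H))).length ≤ n + 1) :
    CertR pay (PF A B H S) V where
  zero := by unfold PF; simp
  lip := by
    obtain ⟨L, hL⟩ := Reg.lipsq (Reg_PF A B H S)
    exact ⟨L, fun x r x' r' a1 a2 a3 a4 a5 a6 a7 a8 => hL x r x' r' a1 a2 a3 a4 a5 a6 a7 a8⟩
  mono := by
    intro x r r' hx hx1 hr hrr hr'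
    have hS' : (0:ℝ) < S := by exact_mod_cast hS
    have h4 : 0 < 4 - 3 * x := by linarith
    have hm : MonotoneOn (fun r => ev2 (rows A B H) r x) (Set.Icc 0 r') := by
      apply monotoneOn_of_deriv_nonneg (convex_Icc 0 r')
      · exact fun r _ => (hasDerivAt_ev2 _ x r).continuousAt.continuousWithinAt
      · exact fun r _ => (hasDerivAt_ev2 _ x r).differentiableAt.differentiableWithinAt
      · intro r1 hr1
        rw [interior_Icc] at hr1
        rw [(hasDerivAt_ev2 _ x r1).deriv]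
        obtain ⟨s, hs0, hs1, hs⟩ := region_chart hx hx1 hr1.1.le
          ((mul_le_mul_of_nonneg_right hr1.2.le h4.le).trans hr')
        have h5 := hmono x s hx hx1 hs0 hs1
        rw [ev2_hom n _ hn' x s h4, ← hs] at h5
        exact nonneg_of_mul_nonneg_right h5 (by positivity)
    have h6 := hm ⟨hr, hrr⟩ ⟨hr.trans hrr, le_rfl⟩ hrr
    simp only [ev2_rows] at h6
    unfold PF
    gcongr
  nonneg := by
    intro x r hx hx1 hr hr1
    have hS' : (0:ℝ) < S := by exact_mod_cast hS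
    have h4 : 0 < 4 - 3 * x := by linarith
    obtain ⟨s, hs0, hs1, hs⟩ := region_chart hx hx1 hr hr1
    have h5 := hnon x s hx hx1 hs0 hs1
    rw [ev2_hom n _ hn x s h4, ← hs, ev2_rows] at h5
    unfold PF
    have := nonneg_of_mul_nonneg_right h5 (by positivity)
    positivity
  le := by
    intro x r hx hx1 hr hr1
    have hS' : (0:ℝ) < S := by exact_mod_cast hS
    have h4 : 0 < 4 - 3 * x := by linarith
    obtain ⟨s, hs0, hs1, hs⟩ := region_chart hx hx1 hr hr1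
    have h5 := hle x s hx hx1 hs0 hs1
    rw [ev2_hom n _ hn2 x s h4, ← hs, ev2_add, ev2_smul, ev2_rows] at h5
    have h6 := nonneg_of_mul_nonneg_right h5 (by positivity)
    simp only [ev2, ev, mul_zero, add_zero] at h6
    push_cast at h6
    unfold PF
    rw [div_le_iff₀ hS']
    linarith
  dyn := fun x r x' a1 a2 a3 a4 a5 a6 => dyn_of_FT hS hpz hpos x r x' a1 a2 a3 a4 a5 a6

/-! ### trimming -/

/-- all coefficients vanish -/
def isZ (F : P3) : Bool := F.all fun M => M.all fun l => l.all fun b => Nat.beq b.natAbs 0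

theorem ev3_isZ {F : P3} (h : isZ F = true) (z t r : ℝ) : ev3 F z t r = 0 := by
  have h1 : ∀ l : List ℤ, l.all (fun b => Nat.beq b.natAbs 0) = true → ev l r = 0 := by
    intro l
    induction l with
    | nil => intro _; rfl
    | cons c l ih =>
      intro h
      rw [List.all_cons, Bool.and_eq_true] at h
      have hc : c = 0 := by
        have := h.1
        exact Int.natAbs_eq_zero.mp (Nat.eq_of_beq_eq_true this)
      simp only [ev]
      rw [ih h.2, hc]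
      simp
  have h2 : ∀ M : List (List ℤ), M.all (fun l => l.all fun b => Nat.beq b.natAbs 0) = true →
      ev2 M t r = 0 := by
    intro M
    induction M with
    | nil => intro _; rfl
    | cons c l ih =>
      intro h
      rw [List.all_cons, Bool.and_eq_true] at h
      simp only [ev2]
      rw [ih h.2, h1 c h.1]
      simp
  unfold isZ at h
  induction F with
  | nil => rfl
  | cons c l ih =>
    rw [List.all_cons, Bool.and_eq_true] at h
    simp only [ev3]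
    rw [ih h.2, h2 c h.1]
    simp

theorem ev3_take (n : ℕ) (F : P3) (h : isZ (F.drop n) = true) (z t r : ℝ) :
    ev3 (F.take n) z t r = ev3 F z t r := by
  induction n generalizing F with
  | zero =>
    rw [List.drop_zero] at h
    rw [ev3_isZ h]; simp [ev3]
  | succ n ih =>
    cases F with
    | nil => rfl
    | cons M F =>
      rw [List.drop_succ_cons] at h
      simp only [List.take_succ_cons, ev3]
      rw [ih F h]

/-! ### the region test -/

/-- the box is outside of `ρ (4 - 3 ζ z) ≤ 1` -/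
def skp (e1 a1 e2 a2 e3 a3 : ℕ) : Bool :=
  Nat.ble (2 ^ (e1 + e2 + e3) + 3 * ((a1 + 1) * (a2 + 1)) * a3 + 1) (4 * 2 ^ (e1 + e2) * a3)

theorem skp_ok : SkipOK skp (fun z t r => r * (4 - 3 * (t * z)) ≤ 1) where
  sound := by
    intro e1 a1 e2 a2 e3 a3 h t1 t2 t3 h1 h1' h2 h2' h3 h3' b1 b2 b3 hr
    unfold skp at h
    have h4 := Nat.le_of_ble_eq_true h
    have h5 : ((2 ^ (e1 + e2 + e3) + 3 * ((a1 + 1) * (a2 + 1)) * a3 + 1 : ℕ) : ℝ) ≤
      ((4 * 2 ^ (e1 + e2) * a3 : ℕ) : ℝ) := by exact_mod_cast h4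
    push_cast at h5
    have p1 : (0:ℝ) < 2 ^ e1 := by positivity
    have p2 : (0:ℝ) < 2 ^ e2 := by positivity
    have p3 : (0:ℝ) < 2 ^ e3 := by positivity
    have q1 : ((a1:ℝ) + t1) / 2 ^ e1 ≤ (a1 + 1) / 2 ^ e1 := by gcongr
    have q2 : ((a2:ℝ) + t2) / 2 ^ e2 ≤ (a2 + 1) / 2 ^ e2 := by gcongr
    have q3 : (a3:ℝ) / 2 ^ e3 ≤ (a3 + t3) / 2 ^ e3 := by gcongr; linarith
    set z := ((a1:ℝ) + t1) / 2 ^ e1 with hz
    set t := ((a2:ℝ) + t2) / 2 ^ e2 with ht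
    set r := ((a3:ℝ) + t3) / 2 ^ e3 with hrr
    have z0 : 0 ≤ z := by rw [hz]; positivity
    have t0 : 0 ≤ t := by rw [ht]; positivity
    have r0 : 0 ≤ r := by rw [hrr]; positivity
    have a10 : ((a1:ℝ) + 1) ≤ 2 ^ e1 := by exact_mod_cast b1
    have a20 : ((a2:ℝ) + 1) ≤ 2 ^ e2 := by exact_mod_cast b2
    have z1 : z ≤ 1 := q1.trans (by rw [div_le_one p1]; exact a10)
    have t1' : t ≤ 1 := q2.trans (by rw [div_le_one p2]; exact a20)
    have hzt : t * z ≤ (a1 + 1) / 2 ^ e1 * ((a2 + 1) / 2 ^ e2) := by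
      rw [mul_comm t z]
      exact mul_le_mul q1 q2 t0 (by positivity)
    have hzt1 : t * z ≤ 1 := by
      calc t * z ≤ 1 * 1 := mul_le_mul t1' z1 z0 (by norm_num)
        _ = 1 := by norm_num
    have h6 : (a3:ℝ) / 2 ^ e3 * (4 - 3 * ((a1 + 1) / 2 ^ e1 * ((a2 + 1) / 2 ^ e2))) ≤ 1 := by
      refine le_trans ?_ hr
      calc (a3:ℝ) / 2 ^ e3 * (4 - 3 * ((a1 + 1) / 2 ^ e1 * ((a2 + 1) / 2 ^ e2))) ≤
          (a3:ℝ) / 2 ^ e3 * (4 - 3 * (t * z)) := by
            refine mul_le_mul_of_nonneg_left (by linarith) (by positivity)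
        _ ≤ r * (4 - 3 * (t * z)) := mul_le_mul_of_nonneg_right q3 (by linarith)
    have h7 : (a3:ℝ) / 2 ^ e3 * (4 - 3 * ((a1 + 1) / 2 ^ e1 * ((a2 + 1) / 2 ^ e2))) =
      (4 * 2 ^ (e1 + e2) * a3 - 3 * ((a1 + 1) * (a2 + 1)) * a3) / 2 ^ (e1 + e2 + e3) := by
      simp only [pow_add]
      field_simp
    rw [h7, div_le_one (by positivity)] at h6
    linarith

end Pool.Agent.Helper2.PB
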