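import Mathlib

/-!
# Bernstein polynomials of sequences: the de Casteljau recursion and subdivision
-/

namespace Pool.Agent.Helper2.PB

/-- `D n f t = ∑ C(n,i) f i t^i (1-t)^(n-i)` by the de Casteljau recursion -/
noncomputable def D : ℕ → (ℕ → ℝ) → ℝ → ℝ
  | 0, f, _ => f 0
  | n + 1, f, t => (1 - t) * D n f t + t * D n (fun i => f (i + 1)) t

theorem D_congr (n : ℕ) {f g : ℕ → ℝ} (h : ∀ i, i ≤ n → f i = g i) (t : ℝ) : D n f t = D n g t := by
  induction n generalizing f g with
  | zero => exact h 0 le_rfl
  | succ n ih =>
    simp only [D]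
    rw [ih (fun i hi => h i (by omega)), ih (f := fun i => f (i + 1)) (g := fun i => g (i + 1))
      (fun i hi => h (i + 1) (by omega))]

theorem D_mono (n : ℕ) {f g : ℕ → ℝ} (h : ∀ i, i ≤ n → f i ≤ g i) {t : ℝ} (h0 : 0 ≤ t)
    (h1 : t ≤ 1) : D n f t ≤ D n g t := by
  induction n generalizing f g with
  | zero => exact h 0 le_rfl
  | succ n ih =>
    simp only [D]
    have a := ih (fun i hi => h i (by omega))
    have b := ih (f := fun i => f (i + 1)) (g := fun i => g (i + 1))
      (fun i hi => h (i + 1) (by omega))
    have c := mul_le_mul_of_nonneg_left a (sub_nonneg.mpr h1)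
    have d := mul_le_mul_of_nonneg_left b h0
    linarith

theorem D_const (n : ℕ) (c t : ℝ) : D n (fun _ => c) t = c := by
  induction n with
  | zero => rfl
  | succ n ih => simp only [D, ih]; ring

theorem D_add (n : ℕ) (f g : ℕ → ℝ) (t : ℝ) : D n (fun i => f i + g i) t = D n f t + D n g t := by
  induction n generalizing f g with
  | zero => rfl
  | succ n ih =>
    simp only [D]
    rw [ih, ih (fun i => f (i + 1)) (fun i => g (i + 1))]
    ring

theorem D_smul (n : ℕ) (c : ℝ) (f : ℕ → ℝ) (t : ℝ) : D n (fun i => c * f i) t = c * D n f t := by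
  induction n generalizing f with
  | zero => rfl
  | succ n ih =>
    simp only [D]
    rw [ih, ih (fun i => f (i + 1))]
    ring

theorem D_comm (n m : ℕ) (a : ℕ → ℕ → ℝ) (s t : ℝ) :
    D n (fun i => D m (fun j => a i j) s) t = D m (fun j => D n (fun i => a i j) t) s := by
  induction n generalizing a with
  | zero => rfl
  | succ n ih =>
    simp only [D]
    rw [ih, ih (fun i j => a (i + 1) j), ← D_smul, ← D_smul, ← D_add]

/-- left half -/
theorem D_left (n : ℕ) (f : ℕ → ℝ) (s t : ℝ) : D n (fun r => D r f s) t = D n f (t * s) := by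
  induction n generalizing f with
  | zero => rfl
  | succ n ih =>
    simp only [D]
    have h1 : D n (fun i => (1 - s) * D i f s + s * D i (fun i => f (i + 1)) s) t =
        (1 - s) * D n (fun r => D r f s) t + s * D n (fun r => D r (fun i => f (i + 1)) s) t := by
      rw [D_add n (fun i => (1 - s) * D i f s) (fun i => s * D i (fun i => f (i + 1)) s), D_smul,
        D_smul]
    rw [h1, ih f, ih (fun i => f (i + 1))]
    ring

/-- right half -/
theorem D_right (n : ℕ) (f : ℕ → ℝ) (s t : ℝ) :
    D n (fun k => D (n - k) (fun i => f (i + k)) s) t = D n f (s + t - s * t) := by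
  induction n generalizing f with
  | zero => rfl
  | succ n ih =>
    have hA : D n (fun k => D (n + 1 - k) (fun i => f (i + k)) s) t =
        (1 - s) * D n f (s + t - s * t) + s * D n (fun i => f (i + 1)) (s + t - s * t) := by
      rw [← ih f, ← ih (fun i => f (i + 1)), ← D_smul, ← D_smul, ← D_add]
      refine D_congr n (fun k hk => ?_) t
      have e : n + 1 - k = (n - k) + 1 := by omega
      rw [e]
      simp only [D]
      congr 2
      refine D_congr _ (fun i _ => ?_) s
      congr 1
      omega
    have hB : D n (fun k => D (n + 1 - (k + 1)) (fun i => f (i + (k + 1))) s) t =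
        D n (fun i => f (i + 1)) (s + t - s * t) := by
      rw [← ih (fun i => f (i + 1))]
      refine D_congr n (fun k hk => ?_) t
      have e : n + 1 - (k + 1) = n - k := by omega
      rw [e]
      refine D_congr _ (fun i _ => ?_) s
      congr 1
    simp only [D]
    rw [hA, hB]
    ring

/-- adjacent sums -/
def A : ℕ → (ℕ → ℕ) → ℕ
  | 0, f => f 0
  | r + 1, f => A r f + A r (fun i => f (i + 1))

theorem A_eq (r : ℕ) (f : ℕ → ℕ) : (A r f : ℝ) = 2 ^ r * D r (fun i => (f i : ℝ)) (1 / 2) := by
  induction r generalizing f with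
  | zero => simp [A, D]
  | succ r ih =>
    simp only [A, D]
    rw [Nat.cast_add, ih, ih (fun i => f (i + 1))]
    ring

theorem A_le (r : ℕ) {f : ℕ → ℕ} {b : ℕ} (h : ∀ i, f i ≤ b) : A r f ≤ 2 ^ r * b := by
  induction r generalizing f with
  | zero => simpa [A] using h 0
  | succ r ih =>
    simp only [A]
    have h1 := ih h
    have h2 := ih (f := fun i => f (i + 1)) (fun i => h (i + 1))
    rw [pow_succ]
    linarith

/-- monomials: `C(i,m)` are the Bernstein coefficients of `C(n,m) t^m` -/
theorem D_choose (n m : ℕ) (t : ℝ) :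
    D n (fun i => (i.choose m : ℝ)) t = n.choose m * t ^ m := by
  induction n generalizing m with
  | zero =>
    cases m with
    | zero => simp [D]
    | succ m => simp [D]
  | succ n ih =>
    simp only [D]
    rw [ih]
    cases m with
    | zero =>
      have : (fun i : ℕ => ((i + 1).choose 0 : ℝ)) = fun _ => 1 := by funext i; simp
      rw [this, D_const]
      simp
    | succ m =>
      have : (fun i : ℕ => ((i + 1).choose (m + 1) : ℝ)) =
          fun i => (i.choose m : ℝ) + (i.choose (m + 1) : ℝ) := by
        funext i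
        rw [Nat.choose_succ_succ]
        push_cast
        rfl
      rw [this, D_add, ih, ih, Nat.choose_succ_succ]
      push_cast
      ring

end Pool.Agent.Helper2.PB
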