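import Mathlib

/-!
# Packed vectors of natural numbers
-/

namespace Pool.Agent.Helper2.PB

/-- the `i`-th block of `B` bits -/
def slot (B T i : ℕ) : ℕ := T / 2 ^ (B * i) % 2 ^ B

theorem slot_lt (B T i : ℕ) : slot B T i < 2 ^ B := Nat.mod_lt _ (by positivity)

theorem slot_zero_right (B T : ℕ) : slot B T 0 = T % 2 ^ B := by simp [slot]

theorem slot_succ (B T i : ℕ) : slot B T (i + 1) = slot B (T / 2 ^ B) i := by
  unfold slot
  rw [Nat.div_div_eq_div_mul, ← pow_add]
  congr 3
  ring

theorem slot_zero (B i : ℕ) : slot B 0 i = 0 := by simp [slot]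

theorem slot_add (B : ℕ) (T U : ℕ) (h : ∀ i, slot B T i + slot B U i < 2 ^ B) (i : ℕ) :
    slot B (T + U) i = slot B T i + slot B U i := by
  induction i generalizing T U with
  | zero =>
    have h0 := h 0
    simp only [slot_zero_right] at h0 ⊢
    rw [Nat.add_mod, Nat.mod_eq_of_lt h0]
  | succ i ih =>
    have h0 := h 0
    simp only [slot_zero_right] at h0
    have e : (T + U) / 2 ^ B = T / 2 ^ B + U / 2 ^ B := by
      rw [Nat.add_div (by positivity), if_neg (by omega), add_zero]
    rw [slot_succ, e, slot_succ, slot_succ]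
    exact ih _ _ fun j => by
      have := h (j + 1)
      rwa [slot_succ, slot_succ] at this

theorem slot_shr (B T s i : ℕ) : slot B (T >>> (B * s)) i = slot B T (i + s) := by
  unfold slot
  rw [Nat.shiftRight_eq_div_pow, Nat.div_div_eq_div_mul, ← pow_add]
  congr 3
  ring

theorem slot_shl (B T s i : ℕ) :
    slot B (T <<< (B * s)) i = if i < s then 0 else slot B T (i - s) := by
  unfold slot
  rw [Nat.shiftLeft_eq]
  split_ifs with h
  · have e : B * s = B * (s - i) + B * i := by
      rw [← Nat.mul_add]; congr 1; omega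
    rw [e, pow_add, ← Nat.mul_assoc, Nat.mul_div_cancel _ (by positivity)]
    have e2 : B * (s - i) = B * (s - i - 1) + B := by
      obtain ⟨k, hk⟩ : ∃ k, s - i = k + 1 := ⟨s - i - 1, by omega⟩
      rw [hk]; simp; ring
    rw [e2, pow_add, ← Nat.mul_assoc]
    exact Nat.mul_mod_left _ _
  · have e : B * i = B * s + B * (i - s) := by
      rw [← Nat.mul_add]; congr 1; omega
    rw [e, pow_add, ← Nat.div_div_eq_div_mul, Nat.mul_div_cancel _ (by positivity)]

theorem slot_shlm (B : ℕ) (T m : ℕ) (h : ∀ i, slot B T i * 2 ^ m < 2 ^ B) (i : ℕ) :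
    slot B (T <<< m) i = slot B T i * 2 ^ m := by
  induction i generalizing T with
  | zero =>
    have h0 := h 0
    simp only [slot_zero_right] at h0 ⊢
    rw [Nat.shiftLeft_eq]
    conv_lhs => rw [← Nat.div_add_mod T (2 ^ B)]
    rw [Nat.add_mul, Nat.mul_assoc, Nat.mul_add_mod, Nat.mod_eq_of_lt h0]
  | succ i ih =>
    have h0 := h 0
    simp only [slot_zero_right] at h0
    have e : (T <<< m) / 2 ^ B = (T / 2 ^ B) <<< m := by
      rw [Nat.shiftLeft_eq, Nat.shiftLeft_eq]
      conv_lhs => rw [← Nat.div_add_mod T (2 ^ B)]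
      rw [Nat.add_mul, Nat.mul_assoc, Nat.mul_add_div (by positivity), Nat.div_eq_of_lt h0, add_zero]
    rw [slot_succ, e, slot_succ]
    exact ih _ fun j => by
      have := h (j + 1)
      rwa [slot_succ] at this

theorem slot_land (B T U i : ℕ) : slot B (T &&& U) i = slot B T i &&& slot B U i := by
  unfold slot
  rw [← Nat.shiftRight_eq_div_pow, ← Nat.shiftRight_eq_div_pow, ← Nat.shiftRight_eq_div_pow,
    Nat.shiftRight_and_distrib, Nat.and_mod_two_pow]

theorem land_full {B x : ℕ} (h : x < 2 ^ B) : x &&& (2 ^ B - 1) = x := by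
  rw [Nat.and_two_pow_sub_one_eq_mod, Nat.mod_eq_of_lt h]

/-- floor division of every slot -/
theorem slot_floor {B T M m i : ℕ} (hm : m ≤ B) (hM : slot B M i = 2 ^ (B - m) - 1) :
    slot B ((T >>> m) &&& M) i = slot B T i / 2 ^ m := by
  rw [slot_land, hM, Nat.and_two_pow_sub_one_eq_mod]
  unfold slot
  rw [Nat.shiftRight_eq_div_pow, Nat.div_div_eq_div_mul, Nat.mul_comm (2 ^ m),
    ← Nat.div_div_eq_div_mul]
  set U := T / 2 ^ (B * i)
  have e : (2:ℕ) ^ B = 2 ^ m * 2 ^ (B - m) := by rw [← pow_add]; congr 1; omega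
  rw [Nat.mod_mod_of_dvd _ (pow_dvd_pow 2 (Nat.sub_le B m))]
  conv_rhs => rw [e]
  rw [Nat.mod_mul_right_div_self]

/-- packing of a list with block width `w` bits -/
def mkL (w : ℕ) : List ℕ → ℕ
  | [] => 0
  | a :: l => a + (mkL w l) <<< w

theorem slot_eq_zero {B T m i : ℕ} (h : T < 2 ^ (B * m)) (hi : m ≤ i) : slot B T i = 0 := by
  unfold slot
  rw [Nat.div_eq_of_lt, Nat.zero_mod]
  exact h.trans_le (Nat.pow_le_pow_right (by norm_num) (Nat.mul_le_mul_left B hi))

theorem slot_mkL (B m : ℕ) (hB : 0 < B) (hm : 0 < m) (l : List ℕ)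
    (hl : ∀ a ∈ l, a < 2 ^ (B * m)) (i : ℕ) :
    slot B (mkL (B * m) l) i = slot B (l.getD (i / m) 0) (i % m) := by
  induction l generalizing i with
  | nil => simp [mkL, slot_zero]
  | cons a l ih =>
    have ha := hl a (List.mem_cons_self)
    have hl' : ∀ a ∈ l, a < 2 ^ (B * m) := fun b hb => hl b (List.mem_cons_of_mem _ hb)
    simp only [mkL]
    have hadd : ∀ j, slot B a j + slot B (mkL (B * m) l <<< (B * m)) j < 2 ^ B := by
      intro j
      rw [slot_shl]
      split_ifs with h
      · rw [add_zero]; exact slot_lt _ _ _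
      · rw [slot_eq_zero ha (by omega), zero_add]; exact slot_lt _ _ _
    rw [slot_add B _ _ hadd, slot_shl]
    split_ifs with h
    · rw [Nat.div_eq_of_lt h, Nat.mod_eq_of_lt h]
      simp
    · rw [slot_eq_zero ha (by omega), zero_add, ih hl']
      have e1 : i / m = (i - m) / m + 1 := by
        rw [← Nat.add_div_right _ hm]
        congr 1; omega
      have e2 : (i - m) % m = i % m := by
        conv_rhs => rw [show i = (i - m) + m by omega, Nat.add_mod_right]
      rw [e1, e2]
      simp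

theorem mkL_lt (w : ℕ) (l : List ℕ) (hl : ∀ a ∈ l, a < 2 ^ w) : mkL w l < 2 ^ (w * l.length) := by
  induction l with
  | nil => simp [mkL]
  | cons a l ih =>
    have ha := hl a (List.mem_cons_self)
    have h1 := ih fun b hb => hl b (List.mem_cons_of_mem _ hb)
    simp only [mkL, List.length_cons]
    rw [Nat.shiftLeft_eq, Nat.mul_add, mul_one, pow_add]
    have h2 : mkL w l + 1 ≤ 2 ^ (w * l.length) := h1
    have h3 := Nat.mul_le_mul_right (2 ^ w) h2
    calc a + mkL w l * 2 ^ w < 2 ^ w + mkL w l * 2 ^ w := by omega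
      _ = (mkL w l + 1) * 2 ^ w := by ring
      _ ≤ _ := h3

end Pool.Agent.Helper2.PB
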