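import Pool.Agent.Helper2.PB.Seq
import Pool.Agent.Helper2.PB.Slot

/-!
# Subdivision of a packed Bernstein tensor along one dimension
-/

namespace Pool.Agent.Helper2.PB

/-- iterated adjacent sums -/
def Tr (B s T : ℕ) : ℕ → ℕ
  | 0 => T
  | r + 1 => Tr B s T r + (Tr B s T r) >>> (B * s)

theorem slot_Tr {B s T c : ℕ} (hc : ∀ p, slot B T p ≤ c) (r : ℕ) (hr : 2 ^ r * c < 2 ^ B) (p : ℕ) :
    slot B (Tr B s T r) p = A r (fun m => slot B T (p + m * s)) := by
  induction r generalizing p with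
  | zero => simp [Tr, A]
  | succ r ih =>
    have hr' : 2 ^ r * c < 2 ^ B := by
      refine lt_of_le_of_lt ?_ hr
      exact Nat.mul_le_mul_right c (Nat.pow_le_pow_right (by norm_num) (Nat.le_succ r))
    have hb : ∀ q, slot B (Tr B s T r) q ≤ 2 ^ r * c := fun q => by
      rw [ih hr' q]
      exact A_le r fun m => hc _
    simp only [Tr]
    rw [slot_add]
    · rw [slot_shr, ih hr', ih hr']
      simp only [A]
      congr 1
      congr 1
      funext m
      congr 1
      ring
    · intro q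
      rw [slot_shr]
      have h1 := hb q
      have h2 := hb (q + s)
      rw [pow_succ] at hr
      have : 2 ^ r * c + 2 ^ r * c = 2 ^ r * 2 * c := by ring
      omega

/-- left half (times `2 ^ n`) -/
def sumL (B s n : ℕ) (M : ℕ → ℕ) : ℕ → ℕ → ℕ → ℕ
  | 0, _, _ => 0
  | k + 1, r, T => (((T <<< (B * (s * r))) &&& M r) <<< (n - r)) +
      sumL B s n M k (r + 1) (T + T >>> (B * s))

/-- right half (times `2 ^ n`) -/
def sumR (B s n : ℕ) (M : ℕ → ℕ) : ℕ → ℕ → ℕ → ℕ
  | 0, _, _ => 0
  | k + 1, r, T => ((T &&& M (n - r)) <<< (n - r)) + sumR B s n M k (r + 1) (T + T >>> (B * s))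

section

variable {B s n T c : ℕ} {M : ℕ → ℕ} {κ : ℕ → ℕ}

theorem land_mask {B x y : ℕ} (hx : x < 2 ^ B) (b : Prop) [Decidable b]
    (hy : y = if b then 2 ^ B - 1 else 0) : x &&& y = if b then x else 0 := by
  split_ifs at hy ⊢ with h
  · rw [hy, land_full hx]
  · rw [hy, Nat.and_zero]

theorem slot_sumL (hc : ∀ p, slot B T p ≤ c) (hn : 2 ^ n * c < 2 ^ B)
    (hM : ∀ r, r ≤ n → ∀ p, slot B (M r) p = if κ p = r then 2 ^ B - 1 else 0) (k : ℕ) :
    ∀ r, r + k ≤ n + 1 → ∀ p, slot B (sumL B s n M k r (Tr B s T r)) p =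
      if r ≤ κ p ∧ κ p < r + k then
        (if p < s * κ p then 0 else A (κ p) (fun m => slot B T (p - s * κ p + m * s))) *
          2 ^ (n - κ p)
      else 0 := by
  induction k with
  | zero =>
    intro r _ p
    rw [if_neg (by omega)]
    simp [sumL, slot_zero]
  | succ k ih =>
    intro r hr p
    have hrn : r ≤ n := by omega
    have hrb : 2 ^ r * c < 2 ^ B := lt_of_le_of_lt
      (Nat.mul_le_mul_right c (Nat.pow_le_pow_right (by norm_num) hrn)) hn
    have ih' := ih (r + 1) (by omega)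
    -- the masked term
    have h1 : ∀ q, slot B ((Tr B s T r <<< (B * (s * r))) &&& M r) q =
        if κ q = r then (if q < s * r then 0 else A r (fun m => slot B T (q - s * r + m * s)))
        else 0 := by
      intro q
      rw [slot_land, land_mask (slot_lt _ _ _) (κ q = r) (hM r hrn q), slot_shl]
      split_ifs
      · rfl
      · rw [slot_Tr hc r hrb]
      · rfl
    have h1b : ∀ q, slot B ((Tr B s T r <<< (B * (s * r))) &&& M r) q * 2 ^ (n - r) < 2 ^ B := by
      intro q
      rw [h1]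
      split_ifs
      · rw [zero_mul]; positivity
      · have h2 : A r (fun m => slot B T (q - s * r + m * s)) ≤ 2 ^ r * c := A_le r fun m => hc _
        calc _ ≤ 2 ^ r * c * 2 ^ (n - r) := Nat.mul_le_mul_right _ h2
          _ = 2 ^ n * c := by
              rw [mul_right_comm, ← pow_add]; congr 2; omega
          _ < _ := hn
      · rw [zero_mul]; positivity
    have h2 : ∀ q, slot B (((Tr B s T r <<< (B * (s * r))) &&& M r) <<< (n - r)) q =
        (if κ q = r then (if q < s * r then 0 else A r (fun m => slot B T (q - s * r + m * s)))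
        else 0) * 2 ^ (n - r) := by
      intro q
      rw [slot_shlm B _ _ h1b, h1]
    have hT : Tr B s T r + (Tr B s T r) >>> (B * s) = Tr B s T (r + 1) := rfl
    simp only [sumL]
    rw [hT, slot_add]
    · rw [h2, ih']
      by_cases h : κ p = r
      · rw [if_pos h, if_neg (show ¬ (r + 1 ≤ κ p ∧ κ p < r + 1 + k) by omega),
          if_pos (show r ≤ κ p ∧ κ p < r + (k + 1) by omega), add_zero, h]
      · rw [if_neg h, zero_mul, zero_add]
        by_cases h3 : r + 1 ≤ κ p ∧ κ p < r + 1 + k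
        · rw [if_pos h3, if_pos (show r ≤ κ p ∧ κ p < r + (k + 1) by omega)]
        · rw [if_neg h3, if_neg (show ¬ (r ≤ κ p ∧ κ p < r + (k + 1)) by omega)]
    · intro q
      rw [h2, ih']
      by_cases h : κ q = r
      · rw [if_pos h, if_neg (show ¬ (r + 1 ≤ κ q ∧ κ q < r + 1 + k) by omega), add_zero]
        have := h1b q
        rw [h1, if_pos h] at this
        exact this
      · rw [if_neg h, zero_mul, zero_add]
        have := slot_lt B (sumL B s n M k (r + 1) (Tr B s T (r + 1))) q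
        rwa [ih'] at this

theorem slot_sumR (hc : ∀ p, slot B T p ≤ c) (hn : 2 ^ n * c < 2 ^ B)
    (hM : ∀ r, r ≤ n → ∀ p, slot B (M r) p = if κ p = r then 2 ^ B - 1 else 0) (k : ℕ) :
    ∀ r, r + k ≤ n + 1 → ∀ p, slot B (sumR B s n M k r (Tr B s T r)) p =
      if κ p ≤ n ∧ r ≤ n - κ p ∧ n - κ p < r + k then
        A (n - κ p) (fun m => slot B T (p + m * s)) * 2 ^ (κ p)
      else 0 := by
  induction k with
  | zero =>
    intro r _ p
    rw [if_neg (by omega)]
    simp [sumR, slot_zero]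
  | succ k ih =>
    intro r hr p
    have hrn : r ≤ n := by omega
    have hrb : 2 ^ r * c < 2 ^ B := lt_of_le_of_lt
      (Nat.mul_le_mul_right c (Nat.pow_le_pow_right (by norm_num) hrn)) hn
    have ih' := ih (r + 1) (by omega)
    have h1 : ∀ q, slot B (Tr B s T r &&& M (n - r)) q =
        if κ q = n - r then A r (fun m => slot B T (q + m * s)) else 0 := by
      intro q
      rw [slot_land, land_mask (slot_lt _ _ _) (κ q = n - r) (hM (n - r) (by omega) q)]
      split_ifs
      · rw [slot_Tr hc r hrb]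
      · rfl
    have h1b : ∀ q, slot B (Tr B s T r &&& M (n - r)) q * 2 ^ (n - r) < 2 ^ B := by
      intro q
      rw [h1]
      split_ifs
      · have h2 : A r (fun m => slot B T (q + m * s)) ≤ 2 ^ r * c := A_le r fun m => hc _
        calc _ ≤ 2 ^ r * c * 2 ^ (n - r) := Nat.mul_le_mul_right _ h2
          _ = 2 ^ n * c := by
              rw [mul_right_comm, ← pow_add]; congr 2; omega
          _ < _ := hn
      · rw [zero_mul]; positivity
    have h2 : ∀ q, slot B ((Tr B s T r &&& M (n - r)) <<< (n - r)) q =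
        (if κ q = n - r then A r (fun m => slot B T (q + m * s)) else 0) * 2 ^ (n - r) := by
      intro q
      rw [slot_shlm B _ _ h1b, h1]
    have hT : Tr B s T r + (Tr B s T r) >>> (B * s) = Tr B s T (r + 1) := rfl
    simp only [sumR]
    rw [hT, slot_add]
    · rw [h2, ih']
      by_cases h : κ p = n - r
      · rw [if_pos h, if_neg (by omega), if_pos (by omega), add_zero, h]
        have : n - (n - r) = r := by omega
        rw [this]
      · rw [if_neg h, zero_mul, zero_add]
        by_cases h3 : κ p ≤ n ∧ r + 1 ≤ n - κ p ∧ n - κ p < r + 1 + k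
        · rw [if_pos h3, if_pos (by omega)]
        · rw [if_neg h3, if_neg (by omega)]
    · intro q
      rw [h2, ih']
      by_cases h : κ q = n - r
      · rw [if_pos h, if_neg (by omega), add_zero]
        have := h1b q
        rw [h1, if_pos h] at this
        exact this
      · rw [if_neg h, zero_mul, zero_add]
        have := slot_lt B (sumR B s n M k (r + 1) (Tr B s T (r + 1))) q
        rwa [ih'] at this

/-- left half, rounded down -/
def splL (B s n : ℕ) (M : ℕ → ℕ) (MF T : ℕ) : ℕ := (sumL B s n M (n + 1) 0 T) >>> n &&& MF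

/-- right half, rounded down -/
def splR (B s n : ℕ) (M : ℕ → ℕ) (MF T : ℕ) : ℕ := (sumR B s n M (n + 1) 0 T) >>> n &&& MF

theorem pow_le_of {n c B : ℕ} (hc : 0 < c) (hn : 2 ^ n * c < 2 ^ B) : n ≤ B := by
  by_contra h
  push Not at h
  have h1 : (2:ℕ) ^ B ≤ 2 ^ n := Nat.pow_le_pow_right (by norm_num) h.le
  have h2 : 2 ^ n ≤ 2 ^ n * c := Nat.le_mul_of_pos_right _ hc
  omega

/-- value of a slot of the left half -/
theorem splL_val (hc0 : 0 < c) (hc : ∀ p, slot B T p ≤ c) (hn : 2 ^ n * c < 2 ^ B)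
    (hM : ∀ r, r ≤ n → ∀ p, slot B (M r) p = if κ p = r then 2 ^ B - 1 else 0) {MF p : ℕ}
    (hMF : slot B MF p = 2 ^ (B - n) - 1) (hκ : κ p ≤ n) (hp : s * κ p ≤ p) :
    (slot B (splL B s n M MF T) p : ℝ) ≤
      D (κ p) (fun m => (slot B T (p - s * κ p + m * s) : ℝ)) (1 / 2) := by
  unfold splL
  rw [slot_floor (pow_le_of hc0 hn) hMF]
  have h1 := slot_sumL (s := s) hc hn hM (n + 1) 0 (by omega) p
  rw [if_pos (by omega), if_neg (by omega)] at h1
  have h0 : Tr B s T 0 = T := rfl
  rw [h0] at h1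
  rw [h1]
  refine (Nat.cast_div_le).trans ?_
  push_cast
  rw [A_eq, div_le_iff₀ (by positivity)]
  have : (2:ℝ) ^ n = 2 ^ κ p * 2 ^ (n - κ p) := by rw [← pow_add]; congr 1; omega
  rw [this]
  apply le_of_eq
  ring

theorem splR_val (hc0 : 0 < c) (hc : ∀ p, slot B T p ≤ c) (hn : 2 ^ n * c < 2 ^ B)
    (hM : ∀ r, r ≤ n → ∀ p, slot B (M r) p = if κ p = r then 2 ^ B - 1 else 0) {MF p : ℕ}
    (hMF : slot B MF p = 2 ^ (B - n) - 1) (hκ : κ p ≤ n) :
    (slot B (splR B s n M MF T) p : ℝ) ≤
      D (n - κ p) (fun m => (slot B T (p + m * s) : ℝ)) (1 / 2) := by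
  unfold splR
  rw [slot_floor (pow_le_of hc0 hn) hMF]
  have h1 := slot_sumR (s := s) hc hn hM (n + 1) 0 (by omega) p
  rw [if_pos (by omega)] at h1
  have h0 : Tr B s T 0 = T := rfl
  rw [h0] at h1
  rw [h1]
  refine (Nat.cast_div_le).trans ?_
  push_cast
  rw [A_eq, div_le_iff₀ (by positivity)]
  have : (2:ℝ) ^ n = 2 ^ κ p * 2 ^ (n - κ p) := by rw [← pow_add]; congr 1; omega
  rw [this]
  apply le_of_eq
  ring

/-- all slots stay bounded -/
theorem splL_bd (hc0 : 0 < c) (hc : ∀ p, slot B T p ≤ c) (hn : 2 ^ n * c < 2 ^ B)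
    (hM : ∀ r, r ≤ n → ∀ p, slot B (M r) p = if κ p = r then 2 ^ B - 1 else 0) {MF : ℕ}
    (hMF : ∀ p, slot B MF p = 2 ^ (B - n) - 1 ∨ slot B MF p = 0) (p : ℕ) :
    slot B (splL B s n M MF T) p ≤ c := by
  rcases hMF p with h | h
  · unfold splL
    rw [slot_floor (pow_le_of hc0 hn) h]
    have h1 := slot_sumL (s := s) hc hn hM (n + 1) 0 (by omega) p
    have h0 : Tr B s T 0 = T := rfl
    rw [h0] at h1
    rw [h1]
    refine Nat.div_le_of_le_mul ?_
    split_ifs with h2 h3
    · rw [zero_mul]; exact Nat.zero_le _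
    · have h4 : A (κ p) (fun m => slot B T (p - s * κ p + m * s)) ≤ 2 ^ κ p * c :=
        A_le _ fun m => hc _
      calc _ ≤ 2 ^ κ p * c * 2 ^ (n - κ p) := Nat.mul_le_mul_right _ h4
        _ = 2 ^ n * c := by rw [mul_right_comm, ← pow_add]; congr 2; omega
    · exact Nat.zero_le _
  · unfold splL
    rw [slot_land, h, Nat.and_zero]
    exact Nat.zero_le _

theorem splR_bd (hc0 : 0 < c) (hc : ∀ p, slot B T p ≤ c) (hn : 2 ^ n * c < 2 ^ B)
    (hM : ∀ r, r ≤ n → ∀ p, slot B (M r) p = if κ p = r then 2 ^ B - 1 else 0) {MF : ℕ}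
    (hMF : ∀ p, slot B MF p = 2 ^ (B - n) - 1 ∨ slot B MF p = 0) (p : ℕ) :
    slot B (splR B s n M MF T) p ≤ c := by
  rcases hMF p with h | h
  · unfold splR
    rw [slot_floor (pow_le_of hc0 hn) h]
    have h1 := slot_sumR (s := s) hc hn hM (n + 1) 0 (by omega) p
    have h0 : Tr B s T 0 = T := rfl
    rw [h0] at h1
    rw [h1]
    refine Nat.div_le_of_le_mul ?_
    split_ifs with h2
    · have h4 : A (n - κ p) (fun m => slot B T (p + m * s)) ≤ 2 ^ (n - κ p) * c :=
        A_le _ fun m => hc _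
      calc _ ≤ 2 ^ (n - κ p) * c * 2 ^ (κ p) := Nat.mul_le_mul_right _ h4
        _ = 2 ^ n * c := by rw [mul_right_comm, ← pow_add]; congr 2; omega
    · exact Nat.zero_le _
  · unfold splR
    rw [slot_land, h, Nat.and_zero]
    exact Nat.zero_le _

end

/-- masks -/
def msk (B s n cnt r : ℕ) : ℕ :=
  mkL (B * (s * (n + 1))) (List.replicate cnt ((2 ^ (B * s) - 1) <<< (B * (s * r))))

/-- the coordinate of a position in the dimension with stride `s` -/
def crd (s n cnt p : ℕ) : ℕ := if p / (s * (n + 1)) < cnt then p % (s * (n + 1)) / s else n + 1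

theorem mul_sub_one_eq {P Q : ℕ} (hP : 0 < P) (hQ : 0 < Q) :
    P * Q - 1 = P * (Q - 1) + (P - 1) := by
  obtain ⟨Q', rfl⟩ : ∃ Q', Q = Q' + 1 := ⟨Q - 1, by omega⟩
  rw [Nat.mul_add, mul_one, Nat.add_sub_cancel]
  omega

theorem slot_full (B m i : ℕ) : slot B (2 ^ (B * m) - 1) i = if i < m then 2 ^ B - 1 else 0 := by
  unfold slot
  split_ifs with h
  · have e : B * m = B * i + B * (m - i) := by rw [← Nat.mul_add]; congr 1; omega
    have e1 : (2 ^ (B * m) - 1) / 2 ^ (B * i) = 2 ^ (B * (m - i)) - 1 := by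
      rw [e, pow_add]
      set P := 2 ^ (B * i) with hP
      set Q := 2 ^ (B * (m - i)) with hQ
      have hP0 : 0 < P := by positivity
      have hQ0 : 0 < Q := by positivity
      rw [mul_sub_one_eq hP0 hQ0, Nat.mul_add_div hP0, Nat.div_eq_of_lt (by omega), add_zero]
    rw [e1]
    obtain ⟨k, hk⟩ : ∃ k, m - i = k + 1 := ⟨m - i - 1, by omega⟩
    rw [hk, Nat.mul_add, mul_one, Nat.add_comm, pow_add]
    set P := 2 ^ B with hP
    set Q := 2 ^ (B * k) with hQ
    have hP0 : 0 < P := by positivity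
    have hQ0 : 0 < Q := by positivity
    rw [mul_sub_one_eq hP0 hQ0, Nat.mul_add_mod, Nat.mod_eq_of_lt (by omega)]
  · rw [Nat.div_eq_of_lt, Nat.zero_mod]
    have : (2:ℕ) ^ (B * m) ≤ 2 ^ (B * i) :=
      Nat.pow_le_pow_right (by norm_num) (Nat.mul_le_mul_left B (by omega))
    have : 0 < (2:ℕ) ^ (B * m) := by positivity
    omega

theorem slot_msk {B s n cnt : ℕ} (hB : 0 < B) (hs : 0 < s) (r : ℕ) (hr : r ≤ n) (p : ℕ) :
    slot B (msk B s n cnt r) p = if crd s n cnt p = r then 2 ^ B - 1 else 0 := by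
  have hm : 0 < s * (n + 1) := by positivity
  have hlt : (2 ^ (B * s) - 1) <<< (B * (s * r)) < 2 ^ (B * (s * (n + 1))) := by
    rw [Nat.shiftLeft_eq]
    have e : B * (s * (n + 1)) = B * s + B * (s * r) + B * (s * (n - r)) := by
      rw [← Nat.mul_add, ← Nat.mul_add]; congr 1
      obtain ⟨k, rfl⟩ : ∃ k, n = r + k := ⟨n - r, by omega⟩
      have : r + k - r = k := by omega
      rw [this]; ring
    rw [e, pow_add, pow_add]
    have h1 : 0 < 2 ^ (B * s) := by positivity
    have h2 : 0 < 2 ^ (B * (s * r)) := by positivity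
    have h3 : 0 < 2 ^ (B * (s * (n - r))) := by positivity
    calc (2 ^ (B * s) - 1) * 2 ^ (B * (s * r)) < 2 ^ (B * s) * 2 ^ (B * (s * r)) :=
          Nat.mul_lt_mul_of_pos_right (by omega) h2
      _ ≤ _ := Nat.le_mul_of_pos_right _ h3
  unfold msk crd
  rw [slot_mkL B _ hB hm _ (fun a ha => by rw [List.eq_of_mem_replicate ha]; exact hlt)]
  by_cases h : p / (s * (n + 1)) < cnt
  · rw [if_pos h]
    have e : (List.replicate cnt ((2 ^ (B * s) - 1) <<< (B * (s * r)))).getD (p / (s * (n + 1))) 0 =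
        (2 ^ (B * s) - 1) <<< (B * (s * r)) := by
      rw [List.getD_eq_getElem _ _ (by rw [List.length_replicate]; exact h), List.getElem_replicate]
    rw [e, slot_shl, slot_full]
    set q := p % (s * (n + 1)) with hq
    by_cases h1 : q / s = r
    · have h2 : s * r ≤ q := by rw [← h1]; exact Nat.mul_div_le q s
      have h3 : q < s * (r + 1) := by rw [← h1]; exact Nat.lt_mul_div_succ q hs
      have h4 : s * (r + 1) = s * r + s := by ring
      rw [if_pos h1, if_neg (by omega), if_pos (by omega)]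
    · rw [if_neg h1]
      split_ifs with h2 h3
      · rfl
      · exfalso
        apply h1
        rw [Nat.div_eq_iff hs]
        have h4 : s * r = r * s := by ring
        constructor
        · omega
        · omega
      · rfl
  · rw [if_neg h, if_neg (by omega)]
    have e : (List.replicate cnt ((2 ^ (B * s) - 1) <<< (B * (s * r)))).getD (p / (s * (n + 1))) 0 =
        0 := by
      rw [List.getD_eq_default _ _ (by rw [List.length_replicate]; omega)]
    rw [e, slot_zero]

end Pool.Agent.Helper2.PB
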